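import Mathlib

set_option autoImplicit false

namespace Pool.Agent.Lib.MP_107960_al.H11

section Ext

variable {A : Type*} [Ring A]

theorem ext_lemma (X Y Z F F' : A) (hX : X * X = 0)
    (h : (Z + X * Y - X * Z) * F = (Y - X * Y - X * Z) * F') :
    Z * F + X * Y * F = Y * F' - X * Z * F' := by
  have hX' : ∀ t : A, X * (X * t) = 0 := fun t => by rw [← mul_assoc, hX, zero_mul]
  have e5 := congrArg (fun t => X * t) h
  simp only [mul_add, add_mul, mul_sub, sub_mul, mul_assoc, hX', add_zero, sub_zero] at e5 h ⊢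
  have h2 : Z * F + X * (Y * F) = (Y * F' - X * (Y * F') - X * (Z * F')) + X * (Y * F') := by
    rw [← h, e5]; abel
  rw [h2]; abel

end Ext

/-- The ring theoretic data attached to a module: `π` is the (right) action, `D` a class of
involutions. -/
structure Sys (G A : Type*) [Group G] [Ring A] where
  π : G →* A
  D : Set G
  h3 : (3 : A) = 0
  sq : ∀ a ∈ D, a * a = 1
  cl : ∀ a ∈ D, ∀ b ∈ D, a * b * a ∈ D
  br : ∀ a ∈ D, ∀ b ∈ D, a * b * a = b * a * b
  hA : ∀ a ∈ D, ∀ b ∈ D, (π a - 1) * (π b - 1) * (π a - 1) = π a - 1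
  hB : ∀ a ∈ D, ∀ b ∈ D, ∀ c : G, c * a = a * c →
    π c * (1 + π (a * b) + π (b * a)) = 1 + π (a * b) + π (b * a)

namespace Sys

variable {G A : Type*} [Group G] [Ring A] (S : Sys G A)

/-- The idempotent `d - 1` of an involution `d`. -/
def P (a : G) : A := S.π a - 1

theorem π_eq (a : G) : S.π a = 1 + S.P a := by unfold P; abel

theorem three (S : Sys G A) (t : A) : t + t + t = 0 := by
  have h : (3 : A) * t = 0 := by rw [S.h3, zero_mul]
  rw [← h]; noncomm_ring

theorem two_eq (S : Sys G A) (t : A) : t + t = -t := by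
  rw [eq_neg_iff_add_eq_zero]; exact S.three t

theorem ππ {a : G} (ha : a ∈ S.D) : S.π a * S.π a = 1 := by
  rw [← map_mul, S.sq a ha, map_one]

theorem P_sq {a : G} (ha : a ∈ S.D) : S.P a * S.P a = S.P a := by
  have h1 := S.ππ ha
  have h2 : (S.π a - 1) * (S.π a - 1) = S.π a * S.π a - (S.π a + S.π a) + 1 := by noncomm_ring
  unfold P
  rw [h2, h1, S.two_eq]
  have := S.two_eq (1 : A)
  calc (1 : A) - -S.π a + 1 = (1 + 1) + S.π a := by abel
    _ = S.π a - 1 := by rw [this]; abel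

theorem hA' {a b : G} (ha : a ∈ S.D) (hb : b ∈ S.D) : S.P a * S.P b * S.P a = S.P a :=
  S.hA a ha b hb

theorem P_conj {a b : G} (ha : a ∈ S.D) (hb : b ∈ S.D) :
    S.P (b * a * b) = S.P a + S.P b + S.P b * S.P a + S.P a * S.P b := by
  have h1 : S.P (b * a * b) = S.π b * S.P a * S.π b := by
    unfold P
    rw [map_mul, map_mul, mul_sub, sub_mul, mul_one, S.ππ hb]
  rw [h1, S.π_eq b]
  have h2 := S.hA' hb ha
  calc (1 + S.P b) * S.P a * (1 + S.P b)
      = S.P a + S.P b * S.P a * S.P b + S.P b * S.P a + S.P a * S.P b := by noncomm_ring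
    _ = _ := by rw [h2]

/-- the element `s a b`. -/
def s (a b : G) : A := S.P a * S.P b + S.P b * S.P a - S.P a - S.P b

theorem s_eq' (a b : G) : 1 + S.π (a * b) + S.π (b * a) = S.s a b := by
  rw [map_mul, map_mul, S.π_eq a, S.π_eq b]
  unfold s
  calc (1 : A) + (1 + S.P a) * (1 + S.P b) + (1 + S.P b) * (1 + S.P a)
      = S.P a * S.P b + S.P b * S.P a - S.P a - S.P b + (S.P a + S.P a + S.P a)
        + (S.P b + S.P b + S.P b) + (1 + 1 + 1) := by noncomm_ring
    _ = _ := by rw [S.three, S.three, S.three]; abel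

theorem hB' {a b c : G} (ha : a ∈ S.D) (hb : b ∈ S.D) (hc : c * a = a * c) :
    S.π c * S.s a b = S.s a b := by
  have := S.hB a ha b hb c hc
  rwa [S.s_eq'] at this

section base

variable (x : G)

/-- complementary idempotent -/
def q : A := 1 - S.P x

/-- the off diagonal block -/
def C (a : G) : A := S.P x * S.P a * S.q x

/-- the form -/
def W (a b : G) : A := S.P x * S.P a * S.q x * S.P b * S.P x

variable {x} (hx : x ∈ S.D)
include hx

theorem pq : S.P x * S.q x = 0 := by unfold q; rw [mul_sub, mul_one, S.P_sq hx, sub_self]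
theorem qp : S.q x * S.P x = 0 := by unfold q; rw [sub_mul, one_mul, S.P_sq hx, sub_self]
theorem qq : S.q x * S.q x = S.q x := by
  nth_rewrite 1 [q]; rw [sub_mul, one_mul, S.pq hx, sub_zero]

theorem pC (a : G) : S.P x * S.C x a = S.C x a := by
  unfold C; rw [← mul_assoc, ← mul_assoc, S.P_sq hx]
theorem Cq (a : G) : S.C x a * S.q x = S.C x a := by
  unfold C; rw [mul_assoc, S.qq hx]
theorem Cp (a : G) : S.C x a * S.P x = 0 := by
  unfold C; rw [mul_assoc, S.qp hx, mul_zero]
theorem pW (a b : G) : S.P x * S.W x a b = S.W x a b := by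
  unfold W; simp only [← mul_assoc]; rw [S.P_sq hx]
theorem Wp (a b : G) : S.W x a b * S.P x = S.W x a b := by
  unfold W; rw [mul_assoc, S.P_sq hx]
omit hx in
theorem W_eq (a b : G) : S.W x a b = S.C x a * S.P b * S.P x := rfl

theorem pP {a : G} (ha : a ∈ S.D) : S.P x * S.P a = S.P x + S.C x a := by
  have h : S.P x * S.P a = S.P x * S.P a * S.P x + S.P x * S.P a * S.q x := by
    unfold q; noncomm_ring
  rw [h, S.hA' hx ha]; rfl

theorem CP (a : G) {b : G} (hb : b ∈ S.D) :
    S.C x a * S.P b = S.W x a b + S.W x a b * S.C x b := by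
  have h1 : S.C x a * S.P b = S.C x a * S.P b * S.P x + S.C x a * S.P b * S.q x := by
    unfold q; noncomm_ring
  have h2 : S.C x a * S.P b * S.q x = S.C x a * (S.P b * S.P x * S.P b) * S.q x := by
    rw [S.hA' hb hx]
  have h3 : S.W x a b * S.C x b = S.C x a * (S.P b * S.P x * S.P b) * S.q x := by
    rw [← S.Wp hx a b, S.W_eq]
    unfold C
    have := S.P_sq hx
    calc S.P x * S.P a * S.q x * S.P b * S.P x * S.P x * (S.P x * S.P b * S.q x)
        = S.P x * S.P a * S.q x * S.P b * (S.P x * S.P x * S.P x) * S.P b * S.q x := by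
          noncomm_ring
      _ = S.P x * S.P a * S.q x * S.P b * S.P x * S.P b * S.q x := by rw [this, this]
      _ = _ := by noncomm_ring
  rw [h1, h2, h3, S.W_eq]

theorem pπ {a : G} (ha : a ∈ S.D) : S.P x * S.π a = -S.P x + S.C x a := by
  rw [S.π_eq, mul_add, mul_one, S.pP hx ha, ← add_assoc, S.two_eq]

theorem Cπ (a : G) {b : G} (hb : b ∈ S.D) :
    S.C x a * S.π b = S.C x a + S.W x a b + S.W x a b * S.C x b := by
  rw [S.π_eq, mul_add, mul_one, S.CP hx a hb, add_assoc]

theorem pπx : S.P x * S.π x = -S.P x := by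
  rw [S.π_eq, mul_add, mul_one, S.P_sq hx, S.two_eq]

theorem Cπx (a : G) : S.C x a * S.π x = S.C x a := by
  rw [S.π_eq, mul_add, mul_one, S.Cp hx, add_zero]

theorem W_self {a : G} (ha : a ∈ S.D) : S.W x a a = 0 := by
  rw [S.W_eq]
  unfold C q
  have h1 := S.P_sq ha
  have h2 := S.hA' hx ha
  calc S.P x * S.P a * (1 - S.P x) * S.P a * S.P x
      = S.P x * (S.P a * S.P a) * S.P x - (S.P x * S.P a * S.P x) * S.P a * S.P x := by
        noncomm_ring
    _ = 0 := by rw [h1, h2, h2, sub_self]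

theorem W_antisymm {a b : G} (ha : a ∈ S.D) (hb : b ∈ S.D) : S.W x b a = -S.W x a b := by
  have h1 := S.hA' hx (S.cl b hb a ha)
  rw [S.P_conj ha hb] at h1
  have h2 := S.hA' hx ha
  have h3 := S.hA' hx hb
  have e : S.W x b a + S.W x a b =
      (S.P x * (S.P a + S.P b + S.P b * S.P a + S.P a * S.P b) * S.P x)
      - S.P x * S.P a * S.P x - S.P x * S.P b * S.P x
      - (S.P x * S.P b * S.P x) * S.P a * S.P x - (S.P x * S.P a * S.P x) * S.P b * S.P x := by
    unfold W q; noncomm_ring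
  rw [eq_neg_iff_add_eq_zero, e, h1, h2, h3, h2]
  have := S.three (S.P x)
  calc S.P x - S.P x - S.P x - S.P x - S.P x = -(S.P x + S.P x + S.P x) := by abel
    _ = 0 := by rw [this, neg_zero]

theorem πx_q : S.π x * S.q x = S.q x := by
  rw [S.π_eq, add_mul, one_mul, S.pq hx, add_zero]

theorem πx_p : S.π x * S.P x = -S.P x := by
  rw [S.π_eq, add_mul, one_mul, S.P_sq hx, S.two_eq]

theorem Wq (a b : G) : S.W x a b * S.q x = 0 := by
  rw [← S.Wp hx, mul_assoc, S.pq hx, mul_zero]

theorem WP (a b : G) {d : G} (hd : d ∈ S.D) :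
    S.W x a b * S.P d = S.W x a b + S.W x a b * S.C x d := by
  nth_rewrite 1 [← S.Wp hx]
  rw [mul_assoc, S.pP hx hd, mul_add, S.Wp hx]

theorem Wπ (a b : G) {d : G} (hd : d ∈ S.D) :
    S.W x a b * S.π d = -S.W x a b + S.W x a b * S.C x d := by
  nth_rewrite 1 [← S.Wp hx]
  rw [mul_assoc, S.pπ hx hd, mul_add, mul_neg, S.Wp hx]

theorem Wπx (a b : G) : S.W x a b * S.π x = -S.W x a b := by
  nth_rewrite 1 [← S.Wp hx]
  rw [mul_assoc, S.pπx hx, mul_neg, S.Wp hx]

theorem P_f {a d : G} :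
    S.P (x * (a * d * a) * x) = S.π x * S.P (a * d * a) * S.π x := by
  unfold P
  rw [map_mul, map_mul, mul_sub, sub_mul, mul_one, S.ππ hx]

theorem C_f {a d : G} (ha : a ∈ S.D) (hd : d ∈ S.D) :
    S.C x (x * (a * d * a) * x) = S.C x a + S.C x d + S.W x a d * (S.C x a - S.C x d) := by
  have e1 : S.C x (x * (a * d * a) * x) = -(S.P x * S.P (a * d * a) * S.q x) := by
    unfold C
    rw [S.P_f hx]
    calc S.P x * (S.π x * S.P (a * d * a) * S.π x) * S.q x
        = (S.P x * S.π x) * S.P (a * d * a) * (S.π x * S.q x) := by noncomm_ring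
      _ = _ := by rw [S.pπx hx, S.πx_q hx]; noncomm_ring
  have e2 : S.P x * S.P (a * d * a) * S.q x
      = S.C x d + S.C x a + (S.P x * S.P a) * S.P d * S.q x
        + (S.P x * S.P d) * S.P a * S.q x := by
    rw [S.P_conj hd ha]; unfold C; noncomm_ring
  have e3 : ∀ {b c : G}, b ∈ S.D → c ∈ S.D → (S.P x * S.P b) * S.P c * S.q x
      = S.C x c + S.W x b c * S.C x c := by
    intro b c hb hc
    rw [S.pP hx hb, add_mul, S.CP hx b hc, add_mul, add_mul, S.Wq hx, mul_assoc (S.W x b c),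
      S.Cq hx, zero_add]
    rfl
  rw [e1, e2, e3 ha hd, e3 hd ha, S.W_antisymm hx ha hd]
  have t1 := S.two_eq (S.C x a)
  have t2 := S.two_eq (S.C x d)
  calc -(S.C x d + S.C x a + (S.C x d + S.W x a d * S.C x d)
          + (S.C x a + -S.W x a d * S.C x a))
      = -(S.C x a + S.C x a) - (S.C x d + S.C x d) + S.W x a d * (S.C x a - S.C x d) := by
        noncomm_ring
    _ = _ := by rw [t1, t2]; noncomm_ring

theorem W_f_left {a d b : G} (ha : a ∈ S.D) (hd : d ∈ S.D) :
    S.W x (x * (a * d * a) * x) b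
      = S.W x a b + S.W x d b + S.W x a d * (S.W x a b - S.W x d b) := by
  rw [S.W_eq (x * (a * d * a) * x) b, S.C_f hx ha hd, S.W_eq a b, S.W_eq d b]
  noncomm_ring

theorem W_f_right {a d b : G} (ha : a ∈ S.D) (hd : d ∈ S.D) :
    S.W x b (x * (a * d * a) * x)
      = S.W x b a + S.W x b d - (S.W x b a - S.W x b d) * S.W x a d := by
  have e1 : S.W x b (x * (a * d * a) * x) = -(S.C x b * S.P (a * d * a) * S.P x) := by
    rw [S.W_eq, S.P_f hx]
    calc S.C x b * (S.π x * S.P (a * d * a) * S.π x) * S.P x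
        = (S.C x b * S.π x) * S.P (a * d * a) * (S.π x * S.P x) := by noncomm_ring
      _ = _ := by rw [S.Cπx hx, S.πx_p hx]; noncomm_ring
  have e2 : S.C x b * S.P (a * d * a) * S.P x
      = S.W x b d + S.W x b a + (S.C x b * S.P a) * S.P d * S.P x
        + (S.C x b * S.P d) * S.P a * S.P x := by
    rw [S.P_conj hd ha]; unfold W C; noncomm_ring
  have e3 : ∀ {c e : G}, c ∈ S.D → e ∈ S.D → (S.C x b * S.P c) * S.P e * S.P x
      = S.W x b c + S.W x b c * S.W x c e := by
    intro c e hc he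
    rw [S.CP hx b hc, add_mul, add_mul, S.WP hx b c he, add_mul, S.Wp hx,
      mul_assoc (S.W x b c) (S.C x e), S.Cp hx, mul_zero, add_zero]
    congr 1
    rw [S.W_eq c e]; noncomm_ring
  rw [e1, e2, e3 ha hd, e3 hd ha, S.W_antisymm hx ha hd]
  have t1 := S.two_eq (S.W x b a)
  have t2 := S.two_eq (S.W x b d)
  calc -(S.W x b d + S.W x b a + (S.W x b a + S.W x b a * S.W x a d)
          + (S.W x b d + S.W x b d * -S.W x a d))
      = -(S.W x b a + S.W x b a) - (S.W x b d + S.W x b d)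
        - (S.W x b a - S.W x b d) * S.W x a d := by noncomm_ring
    _ = _ := by rw [t1, t2]; noncomm_ring

theorem f_mem {a d : G} (ha : a ∈ S.D) (hd : d ∈ S.D) : x * (a * d * a) * x ∈ S.D :=
  S.cl x hx _ (S.cl a ha d hd)

/-- First form of the anticommutation relations. -/
theorem anti1 {a d b : G} (ha : a ∈ S.D) (hd : d ∈ S.D) (hb : b ∈ S.D) :
    S.W x a d * (S.W x a b - S.W x d b) = -((S.W x a b - S.W x d b) * S.W x a d) := by
  have h1 := S.W_antisymm hx hb (S.f_mem hx ha hd)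
  rw [S.W_f_left hx ha hd, S.W_f_right hx ha hd, S.W_antisymm hx ha hb,
    S.W_antisymm hx hd hb] at h1
  have h2 : S.W x a d * (S.W x a b - S.W x d b) =
    (S.W x a b + S.W x d b + S.W x a d * (S.W x a b - S.W x d b))
      - S.W x a b - S.W x d b := by abel
  rw [h2, h1]; noncomm_ring

omit hx in
theorem eq_zero_of_eq_neg {t : A} (S : Sys G A) (h : t = -t) : t = 0 := by
  have h1 := S.two_eq t
  have h2 : t + t = 0 := by nth_rewrite 2 [h]; exact add_neg_cancel t
  rw [h2] at h1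
  have : -t = 0 := h1.symm
  exact neg_eq_zero.mp this

theorem W_sq {a b : G} (ha : a ∈ S.D) (hb : b ∈ S.D) : S.W x a b * S.W x a b = 0 := by
  have h1 := S.anti1 hx ha hb ha
  rw [S.W_self hx ha, S.W_antisymm hx ha hb] at h1
  refine eq_zero_of_eq_neg S ?_
  calc S.W x a b * S.W x a b = S.W x a b * (0 - -S.W x a b) := by noncomm_ring
    _ = -(S.W x a b * S.W x a b) := by rw [h1]; noncomm_ring

theorem anti {a b c : G} (ha : a ∈ S.D) (hb : b ∈ S.D) (hc : c ∈ S.D) :
    S.W x b c * S.W x a b = -(S.W x a b * S.W x b c) := by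
  have h1 := S.anti1 hx ha hb hc
  have h2 := S.anti1 hx hb hc ha
  have h3 := S.anti1 hx hc ha hb
  rw [S.W_antisymm hx hc ha] at h1
  rw [S.W_antisymm hx ha hb] at h2
  rw [S.W_antisymm hx hb hc] at h3
  set X := S.W x a b
  set Y := S.W x b c
  set Z := S.W x c a
  rw [eq_neg_iff_add_eq_zero]
  refine eq_zero_of_eq_neg S ?_
  have k1 : (X * Y + Y * X) = -(X * Z + Z * X) := by
    have : X * (-Z - Y) + (-Z - Y) * X = 0 := by rw [h1]; exact neg_add_cancel _
    have e : X * (-Z - Y) + (-Z - Y) * X = -(X * Z + Z * X) - (X * Y + Y * X) := by noncomm_ring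
    rw [e, sub_eq_zero] at this
    exact this.symm
  have k2 : (Y * X + X * Y) = -(Y * Z + Z * Y) := by
    have : Y * (-X - Z) + (-X - Z) * Y = 0 := by rw [h2]; exact neg_add_cancel _
    have e : Y * (-X - Z) + (-X - Z) * Y = -(Y * Z + Z * Y) - (Y * X + X * Y) := by noncomm_ring
    rw [e, sub_eq_zero] at this
    exact this.symm
  have k3 : (Z * Y + Y * Z) = -(Z * X + X * Z) := by
    have : Z * (-Y - X) + (-Y - X) * Z = 0 := by rw [h3]; exact neg_add_cancel _
    have e : Z * (-Y - X) + (-Y - X) * Z = -(Z * X + X * Z) - (Z * Y + Y * Z) := by noncomm_ring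
    rw [e, sub_eq_zero] at this
    exact this.symm
  calc Y * X + X * Y = -(Z * Y + Y * Z) := by rw [k2]; abel
    _ = Z * X + X * Z := by rw [k3, neg_neg]
    _ = -(-(X * Z + Z * X)) := by abel
    _ = -(Y * X + X * Y) := by rw [← k1]; abel

end base

end Sys

end Pool.Agent.Lib.MP_107960_al.H11
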