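import Mathlib
import Pool.Agent.Lib.MP_107960_al.H11.Ring

set_option autoImplicit false

namespace Pool.Agent.Lib.MP_107960_al.H11

namespace Sys

variable {G A : Type*} [Group G] [Ring A] (S : Sys G A)

/-- two products `(ab)^3 = 1`: the braid relation in `D`. -/
theorem braid_of {G : Type*} [Group G] {a b : G} (ha : a * a = 1) (hb : b * b = 1)
    (hab : (a * b) ^ 3 = 1) : a * b * a = b * a * b := by
  have ha' : a⁻¹ = a := inv_eq_of_mul_eq_one_right ha
  have hb' : b⁻¹ = b := inv_eq_of_mul_eq_one_right hb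
  have h1 : (a * b * a) * (b * a * b) = 1 := by
    rw [← hab]; simp only [pow_succ, pow_zero, one_mul, mul_assoc]
  have h2 : a * b * a = (b * a * b)⁻¹ := eq_inv_of_mul_eq_one_left h1
  rw [h2]
  simp only [mul_inv_rev, ha', hb', mul_assoc]

section base
variable {x : G} (hx : x ∈ S.D)
include hx

theorem p_c {g h : G} (hg : g ∈ S.D) (hh : h ∈ S.D) :
    S.P x * S.π (g * h * x * (g * h * x)) = S.P x - S.W x g h := by
  have hX2 := S.W_sq hx hg hh
  have hhg := S.W_antisymm hx hg hh
  have s1 := S.pπ hx hg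
  have s2 : (S.P x * S.π g) * S.π h
      = S.P x + S.W x g h + S.C x g - S.C x h + S.W x g h * S.C x h := by
    rw [s1, add_mul, neg_mul, S.pπ hx hh, S.Cπ hx g hh]; abel
  have s3 : (S.P x * S.π g * S.π h) * S.π x
      = -S.P x - S.W x g h + S.C x g - S.C x h + S.W x g h * S.C x h := by
    rw [s2]; simp only [add_mul, sub_mul, mul_assoc]
    rw [S.pπx hx, S.Wπx hx, S.Cπx hx, S.Cπx hx]; abel
  have s4 : (S.P x * S.π g * S.π h * S.π x) * S.π g
      = S.P x - S.W x g h - S.C x h + S.W x g h * S.C x h := by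
    rw [s3]; simp only [add_mul, sub_mul, neg_mul, mul_assoc]
    rw [S.pπ hx hg, S.Wπ hx g h hg, S.Cπ hx g hg, S.Cπ hx h hg, S.W_self hx hg, hhg]
    simp only [mul_add, zero_mul, mul_neg, neg_mul, ← mul_assoc, hX2]
    have t := S.two_eq (S.W x g h)
    calc -(-S.P x + S.C x g) - (-S.W x g h + S.W x g h * S.C x g) + (S.C x g + 0 + 0)
            - (S.C x h + -S.W x g h + -(S.W x g h * S.C x g))
            + (S.W x g h * S.C x h + -0 + -0)
        = S.P x + (S.W x g h + S.W x g h) - S.C x h + S.W x g h * S.C x h := by noncomm_ring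
      _ = _ := by rw [t]; abel
  have s5 : (S.P x * S.π g * S.π h * S.π x * S.π g) * S.π h
      = -S.P x + S.W x g h := by
    rw [s4]; simp only [add_mul, sub_mul, neg_mul, mul_assoc]
    rw [S.pπ hx hh, S.Wπ hx g h hh, S.Cπ hx h hh, S.W_self hx hh]
    simp only [mul_add, zero_mul, mul_zero]
    noncomm_ring
  have s6 : (S.P x * S.π g * S.π h * S.π x * S.π g * S.π h) * S.π x
      = S.P x - S.W x g h := by
    rw [s5, add_mul, neg_mul, S.pπx hx, S.Wπx hx]; abel
  rw [← s6]
  simp only [map_mul, mul_assoc]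

theorem C_c {a g h : G} (ha : a ∈ S.D) (hg : g ∈ S.D) (hh : h ∈ S.D) :
    S.C x a * S.π (g * h * x * (g * h * x)) = S.C x a
      + (-S.W x a h + S.W x a g * S.W x g h - S.W x a h * S.W x g h) * S.C x g
      + (S.W x a g + S.W x a g * S.W x g h + S.W x a h * S.W x g h) * S.C x h := by
  have hX2 := S.W_sq hx hg hh
  have hhg := S.W_antisymm hx hg hh
  have s1 := S.Cπ hx a hg
  have s2 : (S.C x a * S.π g) * S.π h
      = (-S.W x a g + S.W x a h + S.W x a g * S.W x g h) + S.C x a + S.W x a g * S.C x g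
        + (S.W x a g + S.W x a h + S.W x a g * S.W x g h) * S.C x h := by
    rw [s1]; simp only [add_mul, mul_assoc]
    rw [S.Cπ hx a hh, S.Wπ hx a g hh, S.Cπ hx g hh]
    noncomm_ring
  have s3 : (S.C x a * S.π g * S.π h) * S.π x
      = (S.W x a g - S.W x a h - S.W x a g * S.W x g h) + S.C x a + S.W x a g * S.C x g
        + (S.W x a g + S.W x a h + S.W x a g * S.W x g h) * S.C x h := by
    rw [s2]; simp only [add_mul, neg_mul, mul_assoc]
    rw [S.Wπx hx, S.Wπx hx, S.Wπx hx, S.Cπx hx, S.Cπx hx, S.Cπx hx]; noncomm_ring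
  have s4 : (S.C x a * S.π g * S.π h * S.π x) * S.π g
      = (S.W x a h - S.W x a h * S.W x g h) + S.C x a
        + (-S.W x a h + S.W x a g * S.W x g h - S.W x a h * S.W x g h) * S.C x g
        + (S.W x a g + S.W x a h + S.W x a g * S.W x g h) * S.C x h := by
    rw [s3]; simp only [add_mul, sub_mul, neg_mul, mul_assoc]
    rw [S.Cπ hx a hg, S.Wπ hx a g hg, S.Wπ hx a h hg, S.Wπ hx g h hg, S.Cπ hx g hg,
      S.Cπ hx h hg, S.W_self hx hg, hhg]
    have hX3 : ∀ t : A, S.W x g h * (S.W x g h * t) = 0 := fun t => by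
      rw [← mul_assoc, hX2, zero_mul]
    simp only [mul_add, zero_mul, mul_zero, mul_neg, neg_mul,
      hX2, hX3]
    have t1 := S.three (S.W x a g * S.C x g)
    have t2 := S.three (S.W x a g * (S.W x g h * S.C x g))
    linear_combination (norm := abel) t1 - t2
  have s5 : (S.C x a * S.π g * S.π h * S.π x * S.π g) * S.π h
      = S.C x a + (-S.W x a h + S.W x a g * S.W x g h - S.W x a h * S.W x g h) * S.C x g
        + (S.W x a g + S.W x a g * S.W x g h + S.W x a h * S.W x g h) * S.C x h := by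
    rw [s4]; simp only [add_mul, sub_mul, neg_mul, mul_assoc]
    rw [S.Cπ hx a hh, S.Wπ hx a h hh, S.Wπ hx g h hh, S.Cπ hx g hh,
      S.Cπ hx h hh, S.W_self hx hh]
    have hX3 : ∀ t : A, S.W x g h * (S.W x g h * t) = 0 := fun t => by
      rw [← mul_assoc, hX2, zero_mul]
    simp only [mul_add, zero_mul, mul_zero, mul_neg, hX2, hX3]
    have t1 := S.three (S.W x a h * S.C x h)
    have t2 := S.three (S.W x a h * (S.W x g h * S.C x h))
    linear_combination (norm := abel) t1 - t2
  have s6 : (S.C x a * S.π g * S.π h * S.π x * S.π g * S.π h) * S.π x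
      = S.C x a + (-S.W x a h + S.W x a g * S.W x g h - S.W x a h * S.W x g h) * S.C x g
        + (S.W x a g + S.W x a g * S.W x g h + S.W x a h * S.W x g h) * S.C x h := by
    rw [s5]; simp only [add_mul, mul_assoc]
    rw [S.Cπx hx, S.Cπx hx, S.Cπx hx]
  rw [← s6]
  simp only [map_mul, mul_assoc]

/-- `F b t = C t * P b * q`. -/
def F (x b t : G) : A := S.C x t * S.P b * S.q x

theorem s_x {b : G} (hb : b ∈ S.D) : S.s x b = -(S.q x * S.P b * S.q x) := by
  have h1 := S.hA' hx hb
  unfold s q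
  calc S.P x * S.P b + S.P b * S.P x - S.P x - S.P b
      = -((1 - S.P x) * S.P b * (1 - S.P x)) + (S.P x * S.P b * S.P x - S.P x) := by
        noncomm_ring
    _ = _ := by rw [h1]; abel

end base

theorem comm_of_braid {G : Type*} [Group G] {x g h : G} (hx : x * x = 1) (hg : g * g = 1)
    (hh : h * h = 1) (h1 : g * x * g = x * g * x) (h2 : x * h * x = h * x * h)
    (h4 : (x * h * x) * g * (x * h * x) = g * (x * h * x) * g) :
    g * h * x * (g * h * x) * x = x * (g * h * x * (g * h * x)) := by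
  have hx' : ∀ t, x * (x * t) = t := fun t => by rw [← mul_assoc, hx, one_mul]
  have hg' : ∀ t, g * (g * t) = t := fun t => by rw [← mul_assoc, hg, one_mul]
  have hh' : ∀ t, h * (h * t) = t := fun t => by rw [← mul_assoc, hh, one_mul]
  have key : (x * h * g * x * h * g) * x * (g * h * x * g * h * x) = x := by
    calc (x * h * g * x * h * g) * x * (g * h * x * g * h * x)
        = x * h * g * x * h * (g * x * g) * h * x * g * h * x := by simp only [mul_assoc]
      _ = x * h * g * x * h * (x * g * x) * h * x * g * h * x := by rw [h1]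
      _ = x * h * g * ((x * h * x) * g * (x * h * x)) * g * h * x := by simp only [mul_assoc]
      _ = x * h * g * (g * (x * h * x) * g) * g * h * x := by rw [h4]
      _ = x * h * (x * h * x) * h * x := by simp only [mul_assoc, hg']
      _ = x * h * (h * x * h) * h * x := by rw [h2]
      _ = x := by simp only [mul_assoc, hh', hx', hx, mul_one]
  have hinv : (g * h * x * g * h * x) * (x * h * g * x * h * g) = 1 := by
    simp only [mul_assoc, hx', hh', hg', hg, hx, hh, mul_one]
  calc g * h * x * (g * h * x) * x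
      = (g * h * x * g * h * x) * ((x * h * g * x * h * g) * x * (g * h * x * g * h * x)) := by
        rw [key]; simp only [mul_assoc]
    _ = ((g * h * x * g * h * x) * (x * h * g * x * h * g)) * x * (g * h * x * g * h * x) := by
        simp only [mul_assoc]
    _ = x * (g * h * x * (g * h * x)) := by rw [hinv, one_mul]; simp only [mul_assoc]

/-- The element `(ghx)^2` commutes with `x`. -/
theorem comm_c {x g h : G} (hx : x ∈ S.D) (hg : g ∈ S.D) (hh : h ∈ S.D) :
    g * h * x * (g * h * x) * x = x * (g * h * x * (g * h * x)) :=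
  comm_of_braid (S.sq x hx) (S.sq g hg) (S.sq h hh) (S.br g hg x hx) (S.br x hx h hh)
    (S.br _ (S.cl x hx h hh) g hg)

section base2

variable {x : G} (hx : x ∈ S.D)
include hx

theorem c_qPq {g h b : G} (hg : g ∈ S.D) (hh : h ∈ S.D) (hb : b ∈ S.D) :
    S.π (g * h * x * (g * h * x)) * (S.q x * S.P b * S.q x) = S.q x * S.P b * S.q x := by
  have h1 := S.hB' hx hb (S.comm_c hx hg hh)
  rw [S.s_x hx hb, mul_neg] at h1
  exact neg_injective h1

theorem rel1 {a g h b : G} (ha : a ∈ S.D) (hg : g ∈ S.D) (hh : h ∈ S.D) (hb : b ∈ S.D) :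
    (S.W x h a + S.W x g h * S.W x g a - S.W x g h * S.W x h a) * S.F x b g
      = (S.W x g a - S.W x g h * S.W x g a - S.W x g h * S.W x h a) * S.F x b h := by
  have h1 := S.c_qPq hx hg hh hb
  have h2 := S.C_c hx ha hg hh
  have h3 : ∀ t : G, S.C x t * (S.q x * S.P b * S.q x) = S.F x b t := fun t => by
    unfold F; rw [← mul_assoc, ← mul_assoc, S.Cq hx]
  have h4 : S.F x b a = (S.C x a
      + (-S.W x a h + S.W x a g * S.W x g h - S.W x a h * S.W x g h) * S.C x g
      + (S.W x a g + S.W x a g * S.W x g h + S.W x a h * S.W x g h) * S.C x h)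
        * (S.q x * S.P b * S.q x) := by
    rw [← h2, mul_assoc, h1, h3]
  have e1 : S.W x a h = -S.W x h a := S.W_antisymm hx hh ha
  have e2 : S.W x a g = -S.W x g a := S.W_antisymm hx hg ha
  have e3 : S.W x a g * S.W x g h = S.W x g h * S.W x g a := by
    have := S.anti hx ha hg hh
    rw [eq_comm, neg_eq_iff_eq_neg] at this
    rw [this, e2]; noncomm_ring
  have e4 : S.W x a h * S.W x g h = S.W x g h * S.W x h a := by
    have := S.anti hx ha hh hg
    rw [S.W_antisymm hx hg hh, e1] at this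
    rw [e1]
    have k : S.W x g h * S.W x h a = -(S.W x h a * S.W x g h) := by
      have t : (-S.W x g h) * (-S.W x h a) = S.W x g h * S.W x h a := by noncomm_ring
      rw [t] at this
      rw [this]; noncomm_ring
    rw [k]; noncomm_ring
  rw [e3, e4, e1, e2] at h4
  simp only [add_mul, mul_assoc (_ : A) (S.C x _) _, h3] at h4
  have h5 := S.three (0 : A)
  linear_combination (norm := noncomm_ring) -h4

/-- The expression `E(a,g,h)`. -/
def E (x b a g h : G) : A :=
  S.W x h a * S.F x b g + S.W x g h * S.W x g a * S.F x b g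

theorem E_swap {a g h b : G} (ha : a ∈ S.D) (hg : g ∈ S.D) (hh : h ∈ S.D) (hb : b ∈ S.D) :
    S.E x b a g h = S.E x b a h g := by
  have h1 := ext_lemma _ _ _ _ _ (S.W_sq hx hg hh) (S.rel1 hx ha hg hh hb)
  unfold E
  rw [h1, S.W_antisymm hx hg hh]
  noncomm_ring

theorem E_rot {a g h b : G} (ha : a ∈ S.D) (hg : g ∈ S.D) (hh : h ∈ S.D) :
    S.E x b g h a = -S.E x b a h g := by
  unfold E
  have e1 : S.W x a h = -S.W x h a := S.W_antisymm hx hh ha
  have e2 : S.W x a g = -S.W x g a := S.W_antisymm hx hg ha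
  have e3 : S.W x h g = -S.W x g h := S.W_antisymm hx hg hh
  have e4 : S.W x h a * S.W x g h = -(S.W x g h * S.W x h a) := S.anti hx hg hh ha
  rw [e2, e3]
  have e5 : S.W x h a * -S.W x g h = S.W x g h * S.W x h a := by
    rw [mul_neg, e4, neg_neg]
  rw [e5]
  noncomm_ring

theorem E_zero {a g h b : G} (ha : a ∈ S.D) (hg : g ∈ S.D) (hh : h ∈ S.D) (hb : b ∈ S.D) :
    S.E x b a g h = 0 := by
  refine S.eq_zero_of_eq_neg ?_
  calc S.E x b a g h = S.E x b a h g := S.E_swap hx ha hg hh hb
    _ = -S.E x b g h a := by rw [S.E_rot hx ha hg hh, neg_neg]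
    _ = -S.E x b g a h := by rw [S.E_swap hx hg hh ha hb]
    _ = S.E x b h a g := by rw [S.E_rot hx hh hg ha, neg_neg]
    _ = S.E x b h g a := S.E_swap hx hh ha hg hb
    _ = -S.E x b a g h := S.E_rot hx ha hh hg

theorem star_x {a g h b : G} (ha : a ∈ S.D) (hg : g ∈ S.D) (hh : h ∈ S.D) (hb : b ∈ S.D) :
    S.W x h a * S.F x b g = 0 := by
  have h1 := S.E_zero hx ha hg hg hb
  have h2 := S.E_zero hx ha hg hh hb
  unfold E at h1 h2
  rw [S.W_self hx hg, zero_mul, zero_mul, add_zero] at h1
  rw [mul_assoc, h1, mul_zero, add_zero] at h2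
  exact h2

/-- The element `(ghx)^2` acts trivially on the image of `s y e`. -/
theorem star {g h y e : G} (hg : g ∈ S.D) (hh : h ∈ S.D) (hy : y ∈ S.D) (he : e ∈ S.D) :
    (S.π (g * h * x * (g * h * x)) - 1) * S.s y e = 0 := by
  set c := g * h * x * (g * h * x) with hc
  have hcx : c * x = x * c := S.comm_c hx hg hh
  have hπ : S.π c * S.π x = S.π x * S.π c := by rw [← map_mul, ← map_mul, hcx]
  have hπP : S.π c * S.P x = S.P x * S.π c := by
    unfold P; rw [mul_sub, sub_mul, hπ, mul_one, one_mul]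
  -- the conjugate of `e`
  set e' := y * (x * e * x) * y with he'
  have he'D : e' ∈ S.D := S.cl y hy _ (S.cl x hx e he)
  -- `s y e` is conjugate to `s x e'`
  have hyxy : y * (x * y * x) * y = x := by
    rw [S.br x hx y hy]
    calc y * (y * x * y) * y = (y * y) * x * (y * y) := by simp only [mul_assoc]
      _ = x := by rw [S.sq y hy, one_mul, mul_one]
  have hxx := S.ππ hx
  have hyy := S.ππ hy
  have hxx' : ∀ t, S.π x * (S.π x * t) = t := fun t => by rw [← mul_assoc, hxx, one_mul]
  have hyy' : ∀ t, S.π y * (S.π y * t) = t := fun t => by rw [← mul_assoc, hyy, one_mul]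
  have conj1 : ∀ t : G, S.P (y * (x * t * x) * y) = S.π y * S.π x * S.P t * S.π x * S.π y := by
    intro t
    unfold P
    simp only [map_mul, mul_sub, sub_mul, mul_one, mul_assoc]
    rw [hxx', hyy]
  have hPy : S.P y = S.π x * S.π y * S.P x * S.π y * S.π x := by
    have := conj1 y
    rw [hyxy] at this
    rw [this]
    simp only [mul_assoc, hxx', hyy', hyy, hxx, mul_one]
  have hPe : S.P e = S.π x * S.π y * S.P e' * S.π y * S.π x := by
    rw [he', conj1 e]
    simp only [mul_assoc, hxx', hyy', hyy, hxx, mul_one]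
  have hs : S.s y e = S.π x * S.π y * S.s x e' * S.π y * S.π x := by
    unfold s
    rw [hPy, hPe]
    simp only [mul_add, add_mul, mul_sub, sub_mul, mul_assoc, hxx', hyy']
  have key : (S.π c - 1) * (S.π y * (S.q x * S.P e' * S.q x)) = 0 := by
    have k1 : S.π c * (S.q x * S.P e' * S.q x) = S.q x * S.P e' * S.q x :=
      S.c_qPq hx hg hh he'D
    have k2 : S.π c * (S.q x * S.P y * S.q x) = S.q x * S.P y * S.q x :=
      S.c_qPq hx hg hh hy
    have k3 : S.P x * S.π c = S.P x - S.W x g h := S.p_c hx hg hh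
    have k4 : S.W x g h * (S.C x y * S.P e' * S.q x) = 0 := S.star_x hx hh hy hg he'D
    have hq := S.qq hx
    have dec : S.π y * (S.q x * S.P e' * S.q x)
        = S.q x * S.P e' * S.q x + (S.q x * S.P y * S.q x) * S.P e' * S.q x
          + S.P x * (S.C x y * S.P e' * S.q x) := by
      rw [S.π_eq y]
      have : S.P y = S.q x * S.P y + S.P x * S.P y := by unfold q; noncomm_ring
      nth_rewrite 1 [this]
      have h1 : S.P x * (S.C x y * S.P e' * S.q x) = S.C x y * S.P e' * S.q x := by
        rw [← mul_assoc, ← mul_assoc, S.pC hx]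
      rw [h1]
      unfold C
      noncomm_ring
    rw [dec]
    have t1 : S.π c * ((S.q x * S.P y * S.q x) * S.P e' * S.q x)
        = (S.q x * S.P y * S.q x) * S.P e' * S.q x := by
      rw [← mul_assoc, ← mul_assoc, k2]
    have t2 : S.π c * (S.P x * (S.C x y * S.P e' * S.q x))
        = S.P x * (S.C x y * S.P e' * S.q x) - S.W x g h * (S.C x y * S.P e' * S.q x) := by
      rw [← mul_assoc, hπP, k3, sub_mul]
    rw [sub_mul, one_mul, mul_add, mul_add, k1, t1, t2, k4]
    abel
  rw [hs, S.s_x hx he'D]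
  calc (S.π c - 1) * (S.π x * S.π y * -(S.q x * S.P e' * S.q x) * S.π y * S.π x)
      = -((S.π c * S.π x - S.π x) * (S.π y * (S.q x * S.P e' * S.q x)) * S.π y * S.π x) := by
        noncomm_ring
    _ = -(S.π x * ((S.π c - 1) * (S.π y * (S.q x * S.P e' * S.q x))) * S.π y * S.π x) := by
        rw [hπ]; noncomm_ring
    _ = 0 := by rw [key]; noncomm_ring

end base2

end Sys

end Pool.Agent.Lib.MP_107960_al.H11
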