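import Mathlib
import Pool.Agent.Lib.MP_107960_al.H11.Star

set_option autoImplicit false

open scoped commutatorElement

namespace Pool.Agent.Lib.MP_107960_al.H11

/-- The subgroup generated by the elements `(ghk)^2`, `g,h,k` in `D`. -/
def NN {G : Type*} [Group G] (D : Set G) : Subgroup G :=
  Subgroup.closure {c | ∃ g ∈ D, ∃ h ∈ D, ∃ k ∈ D, c = g * h * k * (g * h * k)}

/-- The subgroup generated by the elements `de`, `d,e` in `D`. -/
def TT {G : Type*} [Group G] (D : Set G) : Subgroup G :=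
  Subgroup.closure {t | ∃ d ∈ D, ∃ e ∈ D, t = d * e}

namespace Sys

variable {G A : Type*} [Group G] [Ring A] (S : Sys G A)

/-- The left ideal of elements killing all `s y e`. -/
def InJ (z : A) : Prop := ∀ y ∈ S.D, ∀ e ∈ S.D, z * S.s y e = 0

theorem J_N {c : G} (hc : c ∈ NN S.D) : S.InJ (S.π c - 1) := by
  unfold NN at hc
  induction hc using Subgroup.closure_induction with
  | mem x hx =>
    obtain ⟨g, hg, h, hh, k, hk, rfl⟩ := hx
    intro y hy e he
    exact S.star hk hg hh hy he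
  | one => intro y _ e _; rw [map_one, sub_self, zero_mul]
  | mul x y _ _ hx hy =>
    intro u hu e he
    have h1 : S.π (x * y) - 1 = S.π x * (S.π y - 1) + (S.π x - 1) := by
      rw [map_mul]; noncomm_ring
    rw [h1, add_mul, mul_assoc, hy u hu e he, hx u hu e he, mul_zero, add_zero]
  | inv x _ hx =>
    intro u hu e he
    have h1 : S.π x⁻¹ - 1 = -(S.π x⁻¹ * (S.π x - 1)) := by
      rw [mul_sub, ← map_mul, inv_mul_cancel, map_one, mul_one]; abel
    rw [h1, neg_mul, mul_assoc, hx u hu e he, mul_zero, neg_zero]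

theorem J_conj {z : A} (hz : S.InJ z) {a b : G} (ha : a ∈ S.D) (hb : b ∈ S.D) :
    z * S.P (b * a * b) = -(z * S.P a) - z * S.P b := by
  have h1 := hz a ha b hb
  rw [S.P_conj ha hb]
  unfold s at h1
  have t1 := S.three (z * S.P a)
  have t2 := S.three (z * S.P b)
  have h2 : z * (S.P a + S.P b + S.P b * S.P a + S.P a * S.P b)
      = z * (S.P a * S.P b + S.P b * S.P a - S.P a - S.P b)
        + (z * S.P a + z * S.P a + z * S.P a) + (z * S.P b + z * S.P b + z * S.P b)
        - z * S.P a - z * S.P b := by noncomm_ring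
  rw [h2, h1, t1, t2]; abel

section normal

variable (hcl : ∀ d ∈ S.D, ∀ g : G, g * d * g⁻¹ ∈ S.D)
include hcl

theorem J_right {z : A} (hz : S.InJ z) (g : G) : S.InJ (z * S.π g) := by
  intro y hy e he
  have h1 := hz _ (hcl y hy g) _ (hcl e he g)
  have hc : ∀ t : G, S.π g * S.P t = S.P (g * t * g⁻¹) * S.π g := by
    intro t
    unfold P
    rw [mul_sub, sub_mul, ← map_mul, ← map_mul, inv_mul_cancel_right, mul_one, one_mul]
  have hc' : ∀ (t : G) (u : A), S.π g * (S.P t * u) = S.P (g * t * g⁻¹) * (S.π g * u) := by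
    intro t u; rw [← mul_assoc, hc, mul_assoc]
  have h2 : S.π g * S.s y e = S.s (g * y * g⁻¹) (g * e * g⁻¹) * S.π g := by
    unfold s
    simp only [mul_sub, mul_add, sub_mul, add_mul, mul_assoc, hc, hc']
  rw [mul_assoc, h2, ← mul_assoc, h1, zero_mul]

theorem J_P {z : A} (hz : S.InJ z) {c : G} (hc : c ∈ NN S.D) :
    ∀ y ∈ S.D, z * S.P (c * y * c⁻¹) = z * S.P y := by
  have inv_eq : ∀ a ∈ S.D, a⁻¹ = a := fun a ha => inv_eq_of_mul_eq_one_right (S.sq a ha)
  unfold NN at hc
  induction hc using Subgroup.closure_induction with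
  | mem x hx =>
    obtain ⟨g, hg, h, hh, k, hk, rfl⟩ := hx
    intro y hy
    have e1 : g * h * k * (g * h * k) * y * (g * h * k * (g * h * k))⁻¹
        = g * (h * (k * (g * (h * (k * y * k) * h) * g) * k) * h) * g := by
      simp only [mul_inv_rev, inv_eq g hg, inv_eq h hh, inv_eq k hk, mul_assoc]
    have m1 := S.cl k hk y hy
    have m2 := S.cl h hh _ m1
    have m3 := S.cl g hg _ m2
    have m4 := S.cl k hk _ m3
    have m5 := S.cl h hh _ m4
    rw [e1, S.J_conj hz m5 hg, S.J_conj hz m4 hh, S.J_conj hz m3 hk, S.J_conj hz m2 hg,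
      S.J_conj hz m1 hh, S.J_conj hz hy hk]
    abel
  | one => intro y _; rw [one_mul, inv_one, mul_one]
  | mul x y _ _ hx hy =>
    intro u hu
    have e1 : x * y * u * (x * y)⁻¹ = x * (y * u * y⁻¹) * x⁻¹ := by
      simp only [mul_inv_rev, mul_assoc]
    rw [e1, hx _ (hcl u hu y), hy u hu]
  | inv x _ hx =>
    intro u hu
    have h1 := hx _ (hcl u hu x⁻¹)
    rw [← h1]
    congr 2
    group

theorem J_w {c : G} (hc : c ∈ NN S.D) {w : G} (hw : w ∈ Subgroup.closure S.D) :
    ∀ z : A, S.InJ z → z * S.π (c * w * c⁻¹) = z * S.π w := by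
  induction hw using Subgroup.closure_induction with
  | mem x hx =>
    intro z hz
    rw [S.π_eq, S.π_eq x, mul_add, mul_add, S.J_P hcl hz hc x hx]
  | one => intro z _; rw [mul_one, mul_inv_cancel]
  | mul x y _ _ hx hy =>
    intro z hz
    have e1 : c * (x * y) * c⁻¹ = (c * x * c⁻¹) * (c * y * c⁻¹) := by group
    rw [e1, map_mul, ← mul_assoc, hx z hz, hy _ (S.J_right hcl hz x), mul_assoc, ← map_mul]
  | inv x _ hx =>
    intro z hz
    have h1 := hx _ (S.J_right hcl hz x⁻¹)
    have h2 : z * S.π x⁻¹ * S.π x = z := by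
      rw [mul_assoc, ← map_mul, inv_mul_cancel, map_one, mul_one]
    rw [h2] at h1
    nth_rewrite 1 [← h1]
    rw [mul_assoc, ← map_mul]
    have e1 : c * x * c⁻¹ * (c * x⁻¹ * c⁻¹) = 1 := by group
    rw [e1, map_one, mul_one]

theorem main_mod {c r : G} (hc : c ∈ NN S.D) (hr : r ∈ ⁅NN S.D, Subgroup.closure S.D⁆) :
    (S.π c - 1) * (S.π r - 1) = 0 := by
  have hz := S.J_N hc
  set z := S.π c - 1 with hzdef
  let Fix : Subgroup G :=
    { carrier := {r | z * S.π r = z}
      mul_mem' := by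
        intro a b ha hb
        simp only [Set.mem_ofPred_eq] at ha hb ⊢
        rw [map_mul, ← mul_assoc, ha, hb]
      one_mem' := by simp only [Set.mem_ofPred_eq, map_one, mul_one]
      inv_mem' := by
        intro a ha
        simp only [Set.mem_ofPred_eq] at ha ⊢
        nth_rewrite 1 [← ha]
        rw [mul_assoc, ← map_mul, mul_inv_cancel, map_one, mul_one] }
  have h1 : ⁅NN S.D, Subgroup.closure S.D⁆ ≤ Fix := by
    rw [Subgroup.commutator_le]
    intro g hg w hw
    change z * S.π ⁅g, w⁆ = z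
    rw [commutatorElement_def, map_mul, ← mul_assoc, S.J_w hcl hg hw z hz, mul_assoc,
      ← map_mul, mul_inv_cancel, map_one, mul_one]
  have h2 : z * S.π r = z := h1 hr
  rw [mul_sub, h2, mul_one, sub_self]

end normal

end Sys

section TT

variable {G : Type*} [Group G] {D : Set G}

theorem closure_normal_of {S : Set G} (h : ∀ s ∈ S, ∀ g : G, g * s * g⁻¹ ∈ S) :
    (Subgroup.closure S).Normal := by
  constructor
  intro n hn g
  induction hn using Subgroup.closure_induction with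
  | mem x hx => exact Subgroup.subset_closure (h x hx g)
  | one => rw [mul_one, mul_inv_cancel]; exact Subgroup.one_mem _
  | mul x y _ _ hx hy =>
    have e1 : g * (x * y) * g⁻¹ = (g * x * g⁻¹) * (g * y * g⁻¹) := by group
    rw [e1]; exact Subgroup.mul_mem _ hx hy
  | inv x _ hx =>
    have e1 : g * x⁻¹ * g⁻¹ = (g * x * g⁻¹)⁻¹ := by group
    rw [e1]; exact Subgroup.inv_mem _ hx

theorem NN_normal (hcl : ∀ d ∈ D, ∀ g : G, g * d * g⁻¹ ∈ D) : (NN D).Normal := by
  unfold NN
  refine closure_normal_of ?_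
  rintro s ⟨a, ha, b, hb, c, hc, rfl⟩ g
  refine ⟨_, hcl a ha g, _, hcl b hb g, _, hcl c hc g, ?_⟩
  group

theorem TT_normal (hcl : ∀ d ∈ D, ∀ g : G, g * d * g⁻¹ ∈ D) : (TT D).Normal := by
  unfold TT
  refine closure_normal_of ?_
  rintro s ⟨a, ha, b, hb, rfl⟩ g
  refine ⟨_, hcl a ha g, _, hcl b hb g, ?_⟩
  group

theorem TT_le_closure : TT D ≤ Subgroup.closure D := by
  unfold TT
  rw [Subgroup.closure_le]
  rintro s ⟨a, ha, b, hb, rfl⟩
  exact Subgroup.mul_mem _ (Subgroup.subset_closure ha) (Subgroup.subset_closure hb)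

theorem comm_TT_le_NN (sq : ∀ a ∈ D, a * a = 1) (hcl : ∀ d ∈ D, ∀ g : G, g * d * g⁻¹ ∈ D) :
    ⁅TT D, TT D⁆ ≤ NN D := by
  haveI := NN_normal hcl
  let φ := QuotientGroup.mk' (NN D)
  have hker : ∀ t, t ∈ NN D ↔ φ t = 1 := fun t => by
    rw [← MonoidHom.mem_ker, QuotientGroup.ker_mk']
  have sqφ : ∀ a ∈ D, φ a * φ a = 1 := fun a ha => by rw [← map_mul, sq a ha, map_one]
  have inv_eq : ∀ a ∈ D, (φ a)⁻¹ = φ a := fun a ha => inv_eq_of_mul_eq_one_right (sqφ a ha)
  have rev : ∀ a ∈ D, ∀ b ∈ D, ∀ c ∈ D, φ a * φ b * φ c = φ c * φ b * φ a := by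
    intro a ha b hb c hc
    have h1 : (φ a * φ b * φ c) * (φ a * φ b * φ c) = 1 := by
      simp only [← map_mul]
      rw [← hker]
      exact Subgroup.subset_closure ⟨a, ha, b, hb, c, hc, rfl⟩
    have h2 := eq_inv_of_mul_eq_one_left h1
    rw [h2]
    simp only [mul_inv_rev, inv_eq a ha, inv_eq b hb, inv_eq c hc, mul_assoc]
  have comm : ∀ a ∈ D, ∀ b ∈ D, ∀ c ∈ D, ∀ d ∈ D,
      φ (a * b) * φ (c * d) = φ (c * d) * φ (a * b) := by
    intro a ha b hb c hc d hd
    simp only [map_mul]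
    calc φ a * φ b * (φ c * φ d) = (φ a * φ b * φ c) * φ d := by simp only [mul_assoc]
      _ = φ c * (φ b * φ a * φ d) := by rw [rev a ha b hb c hc]; simp only [mul_assoc]
      _ = φ c * φ d * (φ a * φ b) := by rw [rev b hb a ha d hd]; simp only [mul_assoc]
  -- the generators commute with everything
  have c1 : ∀ a ∈ D, ∀ b ∈ D, ∀ t ∈ TT D, φ t * φ (a * b) = φ (a * b) * φ t := by
    intro a ha b hb t ht
    unfold TT at ht
    induction ht using Subgroup.closure_induction with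
    | mem x hx =>
      obtain ⟨c, hc, d, hd, rfl⟩ := hx
      exact comm c hc d hd a ha b hb
    | one => rw [map_one, one_mul, mul_one]
    | mul x y _ _ hx hy => rw [map_mul, mul_assoc, hy, ← mul_assoc, hx, mul_assoc]
    | inv x _ hx =>
      rw [map_inv, inv_mul_eq_iff_eq_mul, ← mul_assoc, hx, mul_inv_cancel_right]
  have c2 : ∀ s ∈ TT D, ∀ t ∈ TT D, φ s * φ t = φ t * φ s := by
    intro s hs t ht
    unfold TT at ht
    induction ht using Subgroup.closure_induction with
    | mem x hx =>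
      obtain ⟨c, hc, d, hd, rfl⟩ := hx
      exact c1 c hc d hd s hs
    | one => rw [map_one, one_mul, mul_one]
    | mul x y _ _ hx hy => rw [map_mul, ← mul_assoc, hx, mul_assoc, hy, ← mul_assoc]
    | inv x _ hx =>
      rw [map_inv, eq_inv_mul_iff_mul_eq, ← mul_assoc, ← hx, mul_inv_cancel_right]
  rw [Subgroup.commutator_le]
  intro s hs t ht
  rw [hker, map_commutatorElement, commutatorElement_eq_one_iff_mul_comm]
  exact c2 s hs t ht

theorem gamma3_le (sq : ∀ a ∈ D, a * a = 1) (hcl : ∀ d ∈ D, ∀ g : G, g * d * g⁻¹ ∈ D) :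
    ⁅⁅TT D, TT D⁆, TT D⁆ ≤ ⁅NN D, Subgroup.closure D⁆ :=
  Subgroup.commutator_mono (comm_TT_le_NN sq hcl) TT_le_closure

end TT

end Pool.Agent.Lib.MP_107960_al.H11
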