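import Mathlib
import Pool.Agent.Lib.MP_107960_al.H11.Mod

set_option autoImplicit false

open scoped commutatorElement

namespace Pool.Agent.Lib.MP_107960_al.H11

/-- The law `[x,y]^3 = 1`. -/
def Law (G : Type*) [Group G] : Prop := ∀ x y : G, ⁅x, y⁆ ^ 3 = 1

/-- The conjugates of `a`. -/
def Cl {G : Type*} [Group G] (a : G) : Set G := {d | ∃ g : G, d = g * a * g⁻¹}

section basic

variable {G : Type*} [Group G]

theorem Cl_conj {a : G} : ∀ d ∈ Cl a, ∀ g : G, g * d * g⁻¹ ∈ Cl a := by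
  rintro d ⟨h, rfl⟩ g
  exact ⟨g * h, by group⟩

theorem Cl_sq {a : G} (ha : a * a = 1) : ∀ d ∈ Cl a, d * d = 1 := by
  rintro d ⟨h, rfl⟩
  have : h * a * h⁻¹ * (h * a * h⁻¹) = h * (a * a) * h⁻¹ := by group
  rw [this, ha, mul_one, mul_inv_cancel]

theorem Cl_rel {a : G} : ∀ d ∈ Cl a, ∀ e ∈ Cl a, ∃ g : G, e = g * d * g⁻¹ := by
  rintro d ⟨h, rfl⟩ e ⟨k, rfl⟩
  exact ⟨k * h⁻¹, by group⟩

theorem Cl_cube (law : Law G) {a : G} (ha : a * a = 1) :
    ∀ d ∈ Cl a, ∀ e ∈ Cl a, (d * e) ^ 3 = 1 := by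
  intro d hd e he
  obtain ⟨g, rfl⟩ := Cl_rel e he d hd
  have h2 := Cl_sq ha e he
  have h3 : e⁻¹ = e := inv_eq_of_mul_eq_one_right h2
  have h4 := law g e
  rw [commutatorElement_def, h3] at h4
  exact h4

theorem Cl_braid (law : Law G) {a : G} (ha : a * a = 1) :
    ∀ d ∈ Cl a, ∀ e ∈ Cl a, d * e * d = e * d * e := fun d hd e he =>
  Sys.braid_of (Cl_sq ha d hd) (Cl_sq ha e he) (Cl_cube law ha d hd e he)

end basic

section mod

variable {G A : Type*} [Group G] [Ring A]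

/-- The system attached to a representation satisfying the linearised law. -/
def sysOf (law : Law G) {a : G} (ha : a * a = 1) (π : G →* A) (h3 : (3 : A) = 0)
    (hπ : ∀ g h : G, (π h - 1) * (1 + π (g * h⁻¹ * g⁻¹ * h) + π (g * h⁻¹ * g⁻¹ * h)⁻¹) = 0) :
    Sys G A where
  π := π
  D := Cl a
  h3 := h3
  sq := Cl_sq ha
  cl := by
    intro d hd e he
    have h3 : d⁻¹ = d := inv_eq_of_mul_eq_one_right (Cl_sq ha d hd)
    have := Cl_conj e he d
    rwa [h3] at this
  br := Cl_braid law ha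
  hA := by
    intro d hd e he
    obtain ⟨g, hg⟩ := Cl_rel d hd e he
    have hd2 := Cl_sq ha d hd
    have he2 := Cl_sq ha e he
    have hdi : d⁻¹ = d := inv_eq_of_mul_eq_one_right hd2
    have hei : e⁻¹ = e := inv_eq_of_mul_eq_one_right he2
    have h1 := hπ g d
    have h2 : g * d⁻¹ * g⁻¹ * d = e * d := by rw [hdi, ← hg]
    rw [h2, mul_inv_rev, hdi, hei] at h1
    simp only [map_mul] at h1
    have hdd : π d * π d = 1 := by rw [← map_mul, hd2, map_one]
    have hdd' : ∀ t, π d * (π d * t) = t := fun t => by rw [← mul_assoc, hdd, one_mul]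
    have e1 : (π d - 1) * (1 + π e * π d + π d * π e)
        = π d + π d * π e * π d + π e - 1 - π e * π d - π d * π e := by
      simp only [mul_add, sub_mul, mul_one, one_mul, mul_assoc, hdd']
      abel
    rw [e1] at h1
    have e2 : (π d - 1) * (π e - 1) * (π d - 1)
        = (π d + π d * π e * π d + π e - 1 - π e * π d - π d * π e)
          - (π d * π d - 1) + (π d - 1) := by
      noncomm_ring
    rw [e2, h1, hdd]; abel
  hB := by
    intro d hd e he c hc
    obtain ⟨g, hg⟩ := Cl_rel d hd e he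
    have hd2 := Cl_sq ha d hd
    have he2 := Cl_sq ha e he
    have hdi : d⁻¹ = d := inv_eq_of_mul_eq_one_right hd2
    have hei : e⁻¹ = e := inv_eq_of_mul_eq_one_right he2
    -- for every `k` with `k d k⁻¹ = e` we have `π k σ = σ`
    have key : ∀ k : G, e = k * d * k⁻¹ →
        π k * (1 + π (d * e) + π (e * d)) = 1 + π (d * e) + π (e * d) := by
      intro k hk
      have h1 := hπ d k⁻¹
      have h2 : d * (k⁻¹)⁻¹ * d⁻¹ * k⁻¹ = d * e := by
        rw [hk, inv_inv, hdi]; simp only [mul_assoc]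
      rw [h2, mul_inv_rev, hdi, hei] at h1
      have h4 : π k * ((π k⁻¹ - 1) * (1 + π (d * e) + π (e * d)))
          = (π k * π k⁻¹) * (1 + π (d * e) + π (e * d))
            - π k * (1 + π (d * e) + π (e * d)) := by noncomm_ring
      rw [h1, mul_zero, ← map_mul, mul_inv_cancel, map_one, one_mul] at h4
      exact (sub_eq_zero.mp h4.symm).symm
    have k1 := key g hg
    have k2 := key (g * c) (by
      rw [hg]
      have : g * c * d * (g * c)⁻¹ = g * (c * d * c⁻¹) * g⁻¹ := by group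
      rw [this, hc]; group)
    rw [map_mul, mul_assoc] at k2
    have k3 : π g⁻¹ * (π g * (π c * (1 + π (d * e) + π (e * d))))
        = π g⁻¹ * (π g * (1 + π (d * e) + π (e * d))) := by rw [k2, k1]
    have k4 : ∀ t, π g⁻¹ * (π g * t) = t := fun t => by
      rw [← mul_assoc, ← map_mul, inv_mul_cancel, map_one, one_mul]
    rwa [k4, k4] at k3

end mod

section action

variable {G : Type*} [Group G]

theorem abelian_case (L : Subgroup G) [L.Normal]
    (hcomm : ∀ x ∈ L, ∀ y ∈ L, x * y = y * x) (law : Law G) {a : G} (ha : a * a = 1)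
    (hexp : ∀ x ∈ L, x ^ 3 = 1) {v c r : G} (hv : v ∈ L) (hc : c ∈ NN (Cl a))
    (hr : r ∈ ⁅NN (Cl a), Subgroup.closure (Cl a)⁆) :
    ⁅c, v⁆ * r = r * ⁅c, v⁆ := by
  let _ : CommGroup L :=
    { (inferInstance : Group L) with
      mul_comm := fun x y => Subtype.ext (hcomm x x.2 y y.2) }
  let ρ : G → AddMonoid.End (Additive L) := fun g =>
    MonoidHom.toAdditive ((MulAut.conjNormal g : MulAut L) : L →* L)
  let val : Additive L → G := fun v => ((Additive.toMul v : L) : G)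
  have val_inj : ∀ u w : Additive L, val u = val w → u = w := by
    intro u w h
    exact Additive.toMul.injective (Subtype.ext h)
  have val_add : ∀ u w : Additive L, val (u + w) = val u * val w := fun u w => rfl
  have val_neg : ∀ u : Additive L, val (-u) = (val u)⁻¹ := fun u => rfl
  have val_zero : val 0 = 1 := rfl
  have val_mem : ∀ u, val u ∈ L := fun u => (Additive.toMul u : L).2
  have val_ρ : ∀ g u, val (ρ g u) = g * val u * g⁻¹ := fun g u => rfl
  have hext : ∀ X Y : AddMonoid.End (Additive L), (∀ u, val (X u) = val (Y u)) → X = Y :=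
    fun X Y h => DFunLike.ext _ _ fun u => val_inj _ _ (h u)
  have ρ_one : ρ 1 = 1 := by
    refine hext _ _ fun u => ?_
    rw [val_ρ]
    change 1 * val u * 1⁻¹ = val u
    simp
  have ρ_mul : ∀ g h, ρ (g * h) = ρ g * ρ h := by
    intro g h
    refine hext _ _ fun u => ?_
    change val (ρ (g * h) u) = val (ρ g (ρ h u))
    rw [val_ρ, val_ρ, val_ρ]; group
  let π : G →* (AddMonoid.End (Additive L))ᵐᵒᵖ :=
    { toFun := fun g => MulOpposite.op (ρ g⁻¹)
      map_one' := by rw [inv_one, ρ_one]; rfl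
      map_mul' := by
        intro g h
        rw [mul_inv_rev, ρ_mul]; rfl }
  have h3' : (3 : AddMonoid.End (Additive L)) = 0 := by
    refine hext _ _ fun u => ?_
    have e : (3 : AddMonoid.End (Additive L)) = 1 + 1 + 1 := by norm_num
    rw [e]
    change val (u + u + u) = 1
    rw [val_add, val_add]
    have := hexp (val u) (val_mem u)
    rw [← this]; simp only [pow_succ, pow_zero, one_mul]
  have h3 : (3 : (AddMonoid.End (Additive L))ᵐᵒᵖ) = 0 := by
    have : (3 : (AddMonoid.End (Additive L))ᵐᵒᵖ)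
        = MulOpposite.op (3 : AddMonoid.End (Additive L)) := rfl
    rw [this, h3']; rfl
  have hρ : ∀ g h : G, (1 + ρ (g * h⁻¹ * g⁻¹ * h)⁻¹ + ρ (g * h⁻¹ * g⁻¹ * h)) * (ρ h⁻¹ - 1) = 0 := by
    intro g h
    set κ := g * h⁻¹ * g⁻¹ * h with hκ
    have hκ3 : κ ^ 3 = 1 := by
      have := law g h⁻¹
      rw [commutatorElement_def, inv_inv] at this
      exact this
    have hκi : κ⁻¹ = κ * κ := by
      rw [inv_eq_iff_mul_eq_one, ← hκ3]; simp only [pow_succ, pow_zero, one_mul, mul_assoc]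
    have hKKK : ρ κ * ρ κ * ρ κ = 1 := by
      rw [← ρ_mul, ← ρ_mul, ← ρ_one, ← hκ3]; simp only [pow_succ, pow_zero, one_mul]
    have e1 : (1 + ρ κ + ρ κ * ρ κ) * (1 - ρ κ * ρ h⁻¹) = 0 := by
      refine hext _ _ fun u => ?_
      set m := (1 - ρ κ * ρ h⁻¹) u with hm
      have hmv : val m = val u * (κ * (h⁻¹ * val u * h) * κ⁻¹)⁻¹ := by
        have : m = u + -(ρ κ (ρ h⁻¹ u)) := by rw [hm, ← sub_eq_add_neg]; rfl
        rw [this, val_add, val_neg, val_ρ, val_ρ, inv_inv]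
      have e2 : ((1 + ρ κ + ρ κ * ρ κ) * (1 - ρ κ * ρ h⁻¹)) u = m + ρ κ m + ρ κ (ρ κ m) := rfl
      rw [e2]
      change val (m + ρ κ m + ρ κ (ρ κ m)) = 1
      rw [val_add, val_add, val_ρ, val_ρ, val_ρ]
      have e3 : val m * κ = ⁅val u * g, h⁻¹⁆ := by
        rw [hmv, commutatorElement_def, hκ]; group
      have e4 : (val m * κ) ^ 3 = 1 := by rw [e3]; exact law _ _
      have e5 : val m * (κ * val m * κ⁻¹) * (κ * (κ * val m * κ⁻¹) * κ⁻¹)
          = (val m * κ) ^ 3 * (κ ^ 3)⁻¹ := by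
        simp only [pow_succ, pow_zero, one_mul]; group
      rw [e5, e4, hκ3]; simp
    have e6 : (1 + ρ κ⁻¹ + ρ κ) * (ρ h⁻¹ - 1)
        = -((1 + ρ κ + ρ κ * ρ κ) * (1 - ρ κ * ρ h⁻¹))
          + (1 - ρ κ * ρ κ * ρ κ) * ρ h⁻¹ := by
      rw [hκi, ρ_mul]
      generalize ρ κ = K
      generalize ρ h⁻¹ = H
      simp only [mul_sub, sub_mul, add_mul, mul_add, mul_one, one_mul, mul_assoc]
      abel
    rw [e6, e1, hKKK]; simp
  have hπ : ∀ g h : G, (π h - 1) * (1 + π (g * h⁻¹ * g⁻¹ * h) + π (g * h⁻¹ * g⁻¹ * h)⁻¹) = 0 := by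
    intro g h
    have e1 := hρ g h
    have e2 : (π h - 1) * (1 + π (g * h⁻¹ * g⁻¹ * h) + π (g * h⁻¹ * g⁻¹ * h)⁻¹)
        = MulOpposite.op ((1 + ρ (g * h⁻¹ * g⁻¹ * h)⁻¹ + ρ ((g * h⁻¹ * g⁻¹ * h)⁻¹)⁻¹)
          * (ρ h⁻¹ - 1)) := rfl
    rw [e2, inv_inv, e1]; rfl
  let S := sysOf law ha π h3 hπ
  have hfin := S.main_mod (fun d hd g => Cl_conj d hd g) (Subgroup.inv_mem _ hc) hr
  have e7 : (S.π c⁻¹ - 1) * (S.π r - 1) = MulOpposite.op ((ρ r⁻¹ - 1) * (ρ (c⁻¹)⁻¹ - 1)) := rfl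
  rw [e7, inv_inv] at hfin
  have e8 : (ρ r⁻¹ - 1) * (ρ c - 1) = 0 := MulOpposite.op_injective hfin
  let u : Additive L := Additive.ofMul ⟨v, hv⟩
  have hu : val u = v := rfl
  have e9 : val (((ρ r⁻¹ - 1) * (ρ c - 1)) u) = 1 := by rw [e8]; rfl
  have e10 : ((ρ r⁻¹ - 1) * (ρ c - 1)) u = ρ r⁻¹ (ρ c u + -u) + -(ρ c u + -u) := by
    rw [← sub_eq_add_neg, ← sub_eq_add_neg]; rfl
  rw [e10, val_add, val_ρ, val_neg, val_add, val_ρ, val_neg, hu, inv_inv] at e9
  have e11 : c * v * c⁻¹ * v⁻¹ = ⁅c, v⁆ := rfl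
  rw [e11, mul_inv_eq_one, mul_assoc, inv_mul_eq_iff_eq_mul] at e9
  exact e9

end action

end Pool.Agent.Lib.MP_107960_al.H11
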