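import Mathlib
import Pool.Agent.Lib.MP_107960_al.H11.Sec

set_option autoImplicit false

open scoped commutatorElement

namespace Pool.Agent.Lib.MP_107960_al.H11

variable {G : Type*} [Group G]

theorem map_TT {H : Type*} [Group H] (φ : G →* H) (a : G) :
    (TT (Cl a)).map φ ≤ TT (Cl (φ a)) := by
  rw [Subgroup.map_le_iff_le_comap]
  unfold TT
  rw [Subgroup.closure_le]
  rintro t ⟨d, ⟨g, rfl⟩, e, ⟨h, rfl⟩, rfl⟩
  refine Subgroup.subset_closure ⟨φ g * φ a * (φ g)⁻¹, ⟨φ g, rfl⟩, φ h * φ a * (φ h)⁻¹,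
    ⟨φ h, rfl⟩, ?_⟩
  simp only [map_mul, map_inv]

theorem law_quot (law : Law G) (K : Subgroup G) [K.Normal] : Law (G ⧸ K) := by
  intro x y
  obtain ⟨x, rfl⟩ := QuotientGroup.mk'_surjective K x
  obtain ⟨y, rfl⟩ := QuotientGroup.mk'_surjective K y
  rw [← map_commutatorElement, ← map_pow, law x y, map_one]

theorem section_case (law : Law G) {a : G} (ha : a * a = 1) (K L : Subgroup G) [K.Normal]
    [hL : L.Normal] (hc : ⁅L, L⁆ ≤ K) (he : ∀ x ∈ L, x ^ 3 ∈ K) :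
    ⁅⁅L, ⁅TT (Cl a), TT (Cl a)⁆⁆, ⁅⁅TT (Cl a), TT (Cl a)⁆, TT (Cl a)⁆⁆ ≤ K := by
  set φ := QuotientGroup.mk' K with hφ
  have hsurj : Function.Surjective φ := QuotientGroup.mk'_surjective K
  have hker : ∀ t, t ∈ K ↔ φ t = 1 := fun t => by
    rw [← MonoidHom.mem_ker, hφ, QuotientGroup.ker_mk']
  have law' := law_quot law K
  have ha' : φ a * φ a = 1 := by rw [← map_mul, ha, map_one]
  have hTT := map_TT φ a
  have hsq := Cl_sq ha'
  have hcl : ∀ d ∈ Cl (φ a), ∀ g, g * d * g⁻¹ ∈ Cl (φ a) := fun d hd g => Cl_conj d hd g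
  have hT1 : (⁅TT (Cl a), TT (Cl a)⁆).map φ ≤ NN (Cl (φ a)) := by
    rw [Subgroup.map_commutator]
    exact (Subgroup.commutator_mono hTT hTT).trans (comm_TT_le_NN hsq hcl)
  have hT2 : (⁅⁅TT (Cl a), TT (Cl a)⁆, TT (Cl a)⁆).map φ
      ≤ ⁅NN (Cl (φ a)), Subgroup.closure (Cl (φ a))⁆ := by
    rw [Subgroup.map_commutator, Subgroup.map_commutator]
    exact (Subgroup.commutator_mono (Subgroup.commutator_mono hTT hTT) hTT).trans
      (gamma3_le hsq hcl)
  haveI hLn : (L.map φ).Normal := hL.map φ hsurj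
  have hcomm : ∀ x ∈ L.map φ, ∀ y ∈ L.map φ, x * y = y * x := by
    rintro _ ⟨x, hx, rfl⟩ _ ⟨y, hy, rfl⟩
    have : ⁅x, y⁆ ∈ K := hc (Subgroup.commutator_mem_commutator hx hy)
    rw [hker, map_commutatorElement, commutatorElement_eq_one_iff_mul_comm] at this
    exact this
  have hexp : ∀ x ∈ L.map φ, x ^ 3 = 1 := by
    rintro _ ⟨x, hx, rfl⟩
    rw [← map_pow, ← hker]
    exact he x hx
  have main : ∀ c ∈ NN (Cl (φ a)), ∀ v ∈ L.map φ,
      ∀ r ∈ ⁅NN (Cl (φ a)), Subgroup.closure (Cl (φ a))⁆, ⁅c, v⁆ * r = r * ⁅c, v⁆ :=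
    fun c hc v hv r hr => abelian_case (L.map φ) hcomm law' ha' hexp hv hc hr
  rw [Subgroup.commutator_le]
  intro x hx r hr
  rw [hker, map_commutatorElement, commutatorElement_eq_one_iff_mul_comm]
  have hr' : φ r ∈ ⁅NN (Cl (φ a)), Subgroup.closure (Cl (φ a))⁆ :=
    hT2 (Subgroup.mem_map_of_mem φ hr)
  have hle : ⁅L, ⁅TT (Cl a), TT (Cl a)⁆⁆ ≤ (Subgroup.centralizer {φ r}).comap φ := by
    rw [Subgroup.commutator_comm, Subgroup.commutator_le]
    intro c hc v hv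
    rw [Subgroup.mem_comap, Subgroup.mem_centralizer_singleton_iff, map_commutatorElement]
    exact main _ (hT1 (Subgroup.mem_map_of_mem φ hc)) _ (Subgroup.mem_map_of_mem φ hv) _ hr'
  have := hle hx
  rw [Subgroup.mem_comap, Subgroup.mem_centralizer_singleton_iff] at this
  exact this

/-- The derived series of the subgroup generated by the products `de`. -/
def Tn (a : G) : ℕ → Subgroup G
  | 0 => TT (Cl a)
  | n + 1 => ⁅Tn a n, Tn a n⁆

instance Tn_normal (a : G) (n : ℕ) : (Tn a n).Normal := by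
  induction n with
  | zero => exact TT_normal (fun d hd g => Cl_conj d hd g)
  | succ n ih => exact Subgroup.commutator_normal _ _

theorem Tn_succ_le (a : G) (n : ℕ) : Tn a (n + 1) ≤ Tn a n := Subgroup.commutator_le_self _

theorem cube_mem {S : Set G} [hn : (Subgroup.closure S).Normal]
    (h : ∀ s ∈ S, s ^ 3 ∈ ⁅Subgroup.closure S, Subgroup.closure S⁆) {x : G}
    (hx : x ∈ Subgroup.closure S) : x ^ 3 ∈ ⁅Subgroup.closure S, Subgroup.closure S⁆ := by
  set H := Subgroup.closure S with hH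
  set φ := QuotientGroup.mk' ⁅H, H⁆ with hφ
  have hker : ∀ t, t ∈ ⁅H, H⁆ ↔ φ t = 1 := fun t => by
    rw [← MonoidHom.mem_ker, hφ, QuotientGroup.ker_mk']
  have comm : ∀ s ∈ H, ∀ t ∈ H, Commute (φ s) (φ t) := by
    intro s hs t ht
    have := (hker _).mp (Subgroup.commutator_mem_commutator hs ht)
    rwa [map_commutatorElement, commutatorElement_eq_one_iff_commute] at this
  have key : ∀ x ∈ H, φ x ^ 3 = 1 := by
    intro x hx
    rw [hH] at hx
    induction hx using Subgroup.closure_induction with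
    | mem x hx => rw [← map_pow, ← hker]; exact h x hx
    | one => rw [map_one, one_pow]
    | mul x y hx hy h1 h2 => rw [map_mul, (comm x hx y hy).mul_pow, h1, h2, one_mul]
    | inv x _ h1 => rw [map_inv, inv_pow, h1, inv_one]
  rw [hker, map_pow]
  exact key x hx

theorem cube_Tn (law : Law G) {a : G} (ha : a * a = 1) (n : ℕ) {x : G} (hx : x ∈ Tn a n) :
    x ^ 3 ∈ Tn a (n + 1) := by
  cases n with
  | zero =>
    have hn : (TT (Cl a)).Normal := TT_normal (fun d hd g => Cl_conj d hd g)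
    change x ∈ TT (Cl a) at hx
    change x ^ 3 ∈ ⁅TT (Cl a), TT (Cl a)⁆
    unfold TT at hx hn ⊢
    refine cube_mem ?_ hx
    rintro s ⟨d, hd, e, he, rfl⟩
    rw [Cl_cube law ha d hd e he]
    exact Subgroup.one_mem _
  | succ n =>
    have h1 : Tn a (n + 1) = Subgroup.closure {g | ∃ g₁ ∈ Tn a n, ∃ g₂ ∈ Tn a n, ⁅g₁, g₂⁆ = g} :=
      Subgroup.commutator_def _ _
    have hn : (Tn a (n + 1)).Normal := inferInstance
    change x ^ 3 ∈ ⁅Tn a (n + 1), Tn a (n + 1)⁆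
    rw [h1] at hx hn ⊢
    refine cube_mem ?_ hx
    rintro s ⟨g, hg, h, hh, rfl⟩
    rw [law g h]
    exact Subgroup.one_mem _

/-- Three subgroups lemma modulo a normal subgroup. -/
theorem three_sub (A B C N : Subgroup G) [N.Normal] (h1 : ⁅⁅B, C⁆, A⁆ ≤ N)
    (h2 : ⁅⁅C, A⁆, B⁆ ≤ N) : ⁅⁅A, B⁆, C⁆ ≤ N := by
  set φ := QuotientGroup.mk' N with hφ
  have hk : φ.ker = N := by rw [hφ, QuotientGroup.ker_mk']
  have mapbot : ∀ {H : Subgroup G}, H ≤ N ↔ H.map φ = ⊥ := fun {H} => by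
    rw [Subgroup.map_eq_bot_iff, hk]
  rw [mapbot] at h1 h2 ⊢
  simp only [Subgroup.map_commutator] at h1 h2 ⊢
  exact Subgroup.commutator_commutator_eq_bot_of_rotate h1 h2

/-- lower central series of the subgroup `M` as subgroups of `G`. -/
def lc (M : Subgroup G) : ℕ → Subgroup G
  | 0 => M
  | n + 1 => ⁅lc M n, M⁆

instance lc_normal (M : Subgroup G) [M.Normal] (n : ℕ) : (lc M n).Normal := by
  induction n with
  | zero => assumption
  | succ n ih => exact Subgroup.commutator_normal _ _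

theorem lc_comm (M : Subgroup G) [M.Normal] (i j : ℕ) : ⁅lc M i, lc M j⁆ ≤ lc M (i + j + 1) := by
  induction j generalizing i with
  | zero => exact le_rfl
  | succ j ih =>
    rw [Subgroup.commutator_comm]
    change ⁅⁅lc M j, M⁆, lc M i⁆ ≤ _
    refine three_sub _ _ _ _ ?_ ?_
    · have : ⁅M, lc M i⁆ = lc M (i + 1) := Subgroup.commutator_comm _ _
      rw [this]
      have := ih (i + 1)
      rwa [show i + 1 + j + 1 = i + (j + 1) + 1 by ring] at this
    · exact Subgroup.commutator_mono (ih i) le_rfl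

theorem T5_eq_T6 (law : Law G) {a : G} (ha : a * a = 1) : Tn a 5 = Tn a 6 := by
  refine le_antisymm ?_ (Tn_succ_le a 5)
  have main : ∀ n, ⁅⁅Tn a n, Tn a 1⁆, ⁅Tn a 1, Tn a 0⁆⁆ ≤ Tn a (n + 1) := fun n =>
    section_case law ha (Tn a (n + 1)) (Tn a n) le_rfl (fun x hx => cube_Tn law ha n hx)
  have m1 : Tn a 2 ≤ Tn a 1 := Tn_succ_le a 1
  have m2 : Tn a 2 ≤ ⁅Tn a 1, Tn a 0⁆ := Subgroup.commutator_mono le_rfl (Tn_succ_le a 0)
  have step : ∀ n, ⁅⁅Tn a n, Tn a 2⁆, Tn a 2⁆ ≤ Tn a (n + 1) := fun n =>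
    (Subgroup.commutator_mono (Subgroup.commutator_mono le_rfl m1) m2).trans (main n)
  have g1 : lc (Tn a 2) 1 = Tn a 3 := rfl
  have g3 : lc (Tn a 2) 3 ≤ Tn a 4 := step 3
  have g5 : lc (Tn a 2) 5 ≤ Tn a 5 :=
    (Subgroup.commutator_mono (Subgroup.commutator_mono g3 le_rfl) le_rfl).trans (step 4)
  have g7 : lc (Tn a 2) 7 ≤ Tn a 6 :=
    (Subgroup.commutator_mono (Subgroup.commutator_mono g5 le_rfl) le_rfl).trans (step 5)
  have k4 : Tn a 4 ≤ lc (Tn a 2) 3 := lc_comm (Tn a 2) 1 1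
  have k5 : Tn a 5 ≤ lc (Tn a 2) 7 :=
    (Subgroup.commutator_mono k4 k4).trans (lc_comm (Tn a 2) 3 3)
  exact k5.trans g7

end Pool.Agent.Lib.MP_107960_al.H11
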