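import Mathlib
import Pool.Agent.Lib.MP_107960_al.H11.Series

set_option autoImplicit false

open scoped commutatorElement

namespace Pool.Agent.Lib.MP_107960_al.H11

variable {G : Type*} [Group G]

theorem prime_eq_three (law : Law G) [Finite G] {q : ℕ} (hq : q.Prime)
    (hd : q ∣ Nat.card (commutator G)) : q = 3 := by
  by_contra h3
  have : Fact q.Prime := ⟨hq⟩
  let P : Sylow q G := default
  have hN : Subgroup.normalizer (P : Set G) ≤ Subgroup.centralizer (P : Set G) := by
    intro n hn
    rw [Subgroup.mem_centralizer_iff]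
    intro x hx
    have hx' : x ∈ (P : Subgroup G) := hx
    have h1 : ⁅n, x⁆ ∈ (P : Subgroup G) := by
      rw [commutatorElement_def]
      exact Subgroup.mul_mem _ ((Subgroup.mem_normalizer_iff.mp hn x).mp hx')
        (Subgroup.inv_mem _ hx')
    obtain ⟨k, hk⟩ := P.isPGroup' ⟨_, h1⟩
    have hk' : ⁅n, x⁆ ^ q ^ k = 1 := by
      have := congrArg (Subtype.val) hk
      simpa using this
    have ho1 : orderOf ⁅n, x⁆ ∣ 3 := orderOf_dvd_of_pow_eq_one (law n x)
    have ho2 : orderOf ⁅n, x⁆ ∣ q ^ k := orderOf_dvd_of_pow_eq_one hk'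
    have hcop : Nat.Coprime 3 (q ^ k) :=
      Nat.Coprime.pow_right k ((Nat.coprime_primes Nat.prime_three hq).mpr (fun h => h3 h.symm))
    have ho : orderOf ⁅n, x⁆ = 1 := Nat.eq_one_of_dvd_coprimes hcop ho1 ho2
    rw [orderOf_eq_one_iff, commutatorElement_eq_one_iff_mul_comm] at ho
    exact ho.symm
  have hnd := MonoidHom.not_dvd_card_ker_transferSylow P hN
  apply hnd
  refine hd.trans (Subgroup.card_dvd_of_le ?_)
  rw [commutator_def, Subgroup.commutator_le]
  intro g _ h _
  rw [MonoidHom.mem_ker, map_commutatorElement, commutatorElement_eq_one_iff_mul_comm]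
  exact Subtype.ext (hN (Subgroup.le_normalizer ((MonoidHom.transferSylow P hN) h).2) _
    ((MonoidHom.transferSylow P hN) g).2)

theorem commutator_pgroup (law : Law G) [Finite G] : IsPGroup 3 (commutator G) := by
  have h0 : Nat.card (commutator G) ≠ 0 := Nat.card_pos.ne'
  have h1 := Nat.eq_prime_pow_of_unique_prime_dvd (p := 3) h0
    (fun {d} hd hdvd => prime_eq_three law hd hdvd)
  exact IsPGroup.of_card h1

theorem finite_perfect (law : Law G) [Finite G] (P : Subgroup G) (hP : P ≤ ⁅P, P⁆) : P = ⊥ := by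
  have hp := commutator_pgroup law
  have : Fact (Nat.Prime 3) := ⟨Nat.prime_three⟩
  have : Group.IsNilpotent (commutator G) := hp.isNilpotent
  have : Group.IsSolvable (commutator G) := inferInstance
  have hle : P ≤ commutator G := hP.trans (Subgroup.commutator_mono le_top le_top)
  have : Group.IsSolvable P := Group.isSolvable_of_isSolvable_injective (Subgroup.inclusion_injective hle)
  by_contra hne
  have : Nontrivial P := (Subgroup.nontrivial_iff_ne_bot P).mpr hne
  have hlt := Group.IsSolvable.commutator_lt_top_of_nontrivial P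
  apply hlt.ne
  rw [eq_top_iff]
  intro x _
  have hx : (x : G) ∈ ⁅P, P⁆ := hP x.2
  rw [← Subgroup.map_subtype_commutator] at hx
  obtain ⟨y, hy, hyx⟩ := hx
  have : y = x := Subtype.ext hyx
  rwa [← this]

end Pool.Agent.Lib.MP_107960_al.H11
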