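import Mathlib
import Pool.Agent.Lib.MP_107960_al.H11.Fin

set_option autoImplicit false

open scoped commutatorElement

namespace Pool.Agent.Lib.MP_107960_al.H11

variable {G : Type*} [Group G]

theorem map_Tn {H : Type*} [Group H] (φ : G →* H) (a : G) (n : ℕ) :
    (Tn a n).map φ ≤ Tn (φ a) n := by
  induction n with
  | zero => exact map_TT φ a
  | succ n ih =>
    change (⁅Tn a n, Tn a n⁆).map φ ≤ ⁅Tn (φ a) n, Tn (φ a) n⁆
    rw [Subgroup.map_commutator]
    exact Subgroup.commutator_mono ih ih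

theorem law_sub (law : Law G) (H : Subgroup G) : Law H := by
  intro x y
  apply Subtype.ext
  have := law (x : G) (y : G)
  simpa [commutatorElement_def] using this

/-- Residually finite case. -/
theorem Tn_resFin (law : Law G) {a : G} (ha : a * a = 1) [Group.ResiduallyFinite G] :
    Tn a 5 = ⊥ := by
  rw [Subgroup.eq_bot_iff_forall]
  intro x hx
  apply Group.eq_one_iff_forall_finiteIndexNormalSubroup
  intro K
  have : (K.toSubgroup).FiniteIndex := inferInstance
  set φ := QuotientGroup.mk' K.toSubgroup with hφ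
  have law' : Law (G ⧸ K.toSubgroup) := law_quot law K.toSubgroup
  have hfin : Finite (G ⧸ K.toSubgroup) := inferInstance
  have hperf : (Tn a 5).map φ ≤ ⁅(Tn a 5).map φ, (Tn a 5).map φ⁆ := by
    rw [← Subgroup.map_commutator]
    exact Subgroup.map_mono (T5_eq_T6 law ha).le
  have h1 := finite_perfect law' _ hperf
  have h2 : φ x ∈ (Tn a 5).map φ := Subgroup.mem_map_of_mem φ hx
  rw [h1, Subgroup.mem_bot, hφ, QuotientGroup.mk'_apply, QuotientGroup.eq_one_iff] at h2
  exact h2

section loc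

/-- `x` lies in the `n`-th derived group computed in a finitely generated subgroup of `N`. -/
def Q (N : Subgroup G) (a : G) (n : ℕ) (x : G) : Prop :=
  ∃ (H : Subgroup G) (ha : a ∈ H), H.FG ∧ H ≤ N ∧ x ∈ (Tn (⟨a, ha⟩ : H) n).map H.subtype

theorem map_mono_sub {a : G} {H K : Subgroup G} (ha : a ∈ H) (hHK : H ≤ K) (n : ℕ) :
    (Tn (⟨a, ha⟩ : H) n).map H.subtype ≤ (Tn (⟨a, hHK ha⟩ : K) n).map K.subtype := by
  have h1 := map_Tn (Subgroup.inclusion hHK) (⟨a, ha⟩ : H) n
  have h2 := Subgroup.map_mono (f := K.subtype) h1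
  rw [Subgroup.map_map] at h2
  exact h2

theorem Q_union {N : Subgroup G} {a : G} {n m : ℕ} {x y : G} (hx : Q N a n x) (hy : Q N a m y) :
    ∃ (H : Subgroup G) (ha : a ∈ H), H.FG ∧ H ≤ N ∧ x ∈ (Tn (⟨a, ha⟩ : H) n).map H.subtype ∧
      y ∈ (Tn (⟨a, ha⟩ : H) m).map H.subtype := by
  obtain ⟨H, ha, hfg, hle, hxH⟩ := hx
  obtain ⟨K, hb, kfg, kle, hyK⟩ := hy
  exact ⟨H ⊔ K, Subgroup.mem_sup_left ha, hfg.sup kfg, sup_le hle kle,
    map_mono_sub ha le_sup_left n hxH, map_mono_sub hb le_sup_right m hyK⟩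

theorem Q_of_closure {N : Subgroup G} {a : G} {n : ℕ} (haN : a ∈ N) {S : Set G}
    (hS : ∀ s ∈ S, Q N a n s) {x : G} (hx : x ∈ Subgroup.closure S) : Q N a n x := by
  induction hx using Subgroup.closure_induction with
  | mem x hx => exact hS x hx
  | one =>
    refine ⟨Subgroup.closure {a}, Subgroup.subset_closure rfl, ?_, ?_, Subgroup.one_mem _⟩
    · exact (Subgroup.fg_iff _).mpr ⟨{a}, rfl, Set.finite_singleton a⟩
    · rw [Subgroup.closure_le]; rintro _ rfl; exact haN
  | mul x y _ _ hx hy =>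
    obtain ⟨H, ha, hfg, hle, h1, h2⟩ := Q_union hx hy
    exact ⟨H, ha, hfg, hle, Subgroup.mul_mem _ h1 h2⟩
  | inv x _ hx =>
    obtain ⟨H, ha, hfg, hle, h1⟩ := hx
    exact ⟨H, ha, hfg, hle, Subgroup.inv_mem _ h1⟩

theorem conj_in (law : Law G) {a : G} (ha : a * a = 1) {d : G} (hd : d ∈ Cl a) {H : Subgroup G}
    (haH : a ∈ H) (hdH : d ∈ H) : (⟨d, hdH⟩ : H) ∈ Cl (⟨a, haH⟩ : H) := by
  refine ⟨⟨a, haH⟩ * ⟨d, hdH⟩, ?_⟩
  apply Subtype.ext
  have hd2 := Cl_sq ha d hd
  have hai : a⁻¹ = a := inv_eq_of_mul_eq_one_right ha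
  have hdi : d⁻¹ = d := inv_eq_of_mul_eq_one_right hd2
  have hbr := Cl_braid law ha d hd a ⟨1, by group⟩
  have : a * d * a * (a * d)⁻¹ = d := by
    rw [mul_inv_rev, hai, hdi]
    calc a * d * a * (d * a) = a * (d * a * d) * a := by simp only [mul_assoc]
      _ = a * (a * d * a) * a := by rw [hbr]
      _ = (a * a) * d * (a * a) := by simp only [mul_assoc]
      _ = d := by rw [ha, one_mul, mul_one]
  exact this.symm

theorem Q_Tn (law : Law G) {N : Subgroup G} {a : G} (ha : a * a = 1) (hN : Cl a ⊆ N) (n : ℕ) :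
    ∀ x ∈ Tn a n, Q N a n x := by
  have haD : a ∈ Cl a := ⟨1, by group⟩
  have haN : a ∈ N := hN haD
  induction n with
  | zero =>
    intro x hx
    change x ∈ TT (Cl a) at hx
    unfold TT at hx
    refine Q_of_closure haN ?_ hx
    rintro s ⟨d, hd, e, he, rfl⟩
    let H : Subgroup G := Subgroup.closure {a, d, e}
    have haH : a ∈ H := Subgroup.subset_closure (by simp)
    have hdH : d ∈ H := Subgroup.subset_closure (by simp)
    have heH : e ∈ H := Subgroup.subset_closure (by simp)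
    refine ⟨H, haH, (Subgroup.fg_iff _).mpr ⟨{a, d, e}, rfl, by simp⟩, ?_, ?_⟩
    · rw [Subgroup.closure_le]
      intro t ht
      simp only [Set.mem_insert_iff, Set.mem_singleton_iff] at ht
      rcases ht with rfl | rfl | rfl
      · exact haN
      · exact hN hd
      · exact hN he
    · refine ⟨⟨d, hdH⟩ * ⟨e, heH⟩, ?_, rfl⟩
      exact Subgroup.subset_closure ⟨_, conj_in law ha hd haH hdH, _, conj_in law ha he haH heH,
        rfl⟩
  | succ n ih =>
    intro x hx
    have h1 : Tn a (n + 1) = Subgroup.closure {g | ∃ g₁ ∈ Tn a n, ∃ g₂ ∈ Tn a n, ⁅g₁, g₂⁆ = g} :=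
      Subgroup.commutator_def _ _
    rw [h1] at hx
    refine Q_of_closure haN ?_ hx
    rintro s ⟨g, hg, h, hh, rfl⟩
    obtain ⟨H, haH, hfg, hle, hgH, hhH⟩ := Q_union (ih g hg) (ih h hh)
    refine ⟨H, haH, hfg, hle, ?_⟩
    change _ ∈ (⁅Tn (⟨a, haH⟩ : H) n, Tn (⟨a, haH⟩ : H) n⁆).map H.subtype
    rw [Subgroup.map_commutator]
    exact Subgroup.commutator_mem_commutator hgH hhH

theorem Tn_locResFin (law : Law G) {a : G} (ha : a * a = 1) (N : Subgroup G) (hN : Cl a ⊆ N)
    (hfin : ∀ H : Subgroup G, H.FG → H ≤ N → Group.ResiduallyFinite H) :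
    Tn a 5 = ⊥ := by
  rw [Subgroup.eq_bot_iff_forall]
  intro x hx
  obtain ⟨H, haH, hfg, hle, hxH⟩ := Q_Tn law ha hN 5 x hx
  have := hfin H hfg hle
  have h1 : Tn (⟨a, haH⟩ : H) 5 = ⊥ := Tn_resFin (law_sub law H) (Subtype.ext ha)
  rw [h1, Subgroup.map_bot, Subgroup.mem_bot] at hxH
  exact hxH

end loc

section ncl

theorem normalClosure_eq (a : G) : Subgroup.normalClosure {a} = Subgroup.closure (Cl a) := by
  apply le_antisymm
  · have : (Subgroup.closure (Cl a)).Normal := closure_normal_of (fun d hd g => Cl_conj d hd g)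
    refine Subgroup.normalClosure_le_normal ?_
    rintro _ rfl
    exact Subgroup.subset_closure ⟨1, by group⟩
  · rw [Subgroup.closure_le]
    rintro _ ⟨g, rfl⟩
    have hn : (Subgroup.normalClosure ({a} : Set G)).Normal := inferInstance
    exact hn.conj_mem a (Subgroup.subset_normalClosure (Set.mem_singleton a)) g

theorem comm_ncl_le (a : G) (ha : a * a = 1) :
    ⁅Subgroup.normalClosure {a}, Subgroup.normalClosure {a}⁆ ≤ Tn a 0 := by
  have hnorm : (Tn a 0).Normal := inferInstance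
  set φ := QuotientGroup.mk' (Tn a 0) with hφ
  have hker : ∀ t, t ∈ Tn a 0 ↔ φ t = 1 := fun t => by
    rw [← MonoidHom.mem_ker, hφ, QuotientGroup.ker_mk']
  have hgen : ∀ d ∈ Cl a, φ d = φ a := by
    intro d hd
    have h1 : φ (d * a) = 1 := (hker _).mp (Subgroup.subset_closure ⟨d, hd, a, ⟨1, by group⟩, rfl⟩)
    have h2 : φ a * φ a = 1 := by rw [← map_mul, ha, map_one]
    rw [map_mul] at h1
    rw [eq_inv_of_mul_eq_one_left h1]
    exact (eq_inv_of_mul_eq_one_left h2).symm
  have hz : ∀ x ∈ Subgroup.closure (Cl a), φ x ∈ Subgroup.zpowers (φ a) := by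
    intro x hx
    induction hx using Subgroup.closure_induction with
    | mem x hx => rw [hgen x hx]; exact Subgroup.mem_zpowers _
    | one => rw [map_one]; exact Subgroup.one_mem _
    | mul x y _ _ hx hy => rw [map_mul]; exact Subgroup.mul_mem _ hx hy
    | inv x _ hx => rw [map_inv]; exact Subgroup.inv_mem _ hx
  rw [normalClosure_eq, Subgroup.commutator_le]
  intro x hx y hy
  rw [hker, map_commutatorElement, commutatorElement_eq_one_iff_mul_comm]
  obtain ⟨i, hi⟩ := hz x hx
  obtain ⟨j, hj⟩ := hz y hy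
  simp only at hi hj
  rw [← hi, ← hj, ← zpow_add, ← zpow_add, add_comm]

theorem Tn_zero_le (law : Law G) {a : G} (ha : a * a = 1) :
    Tn a 0 ≤ ⁅Subgroup.normalClosure {a}, Subgroup.normalClosure {a}⁆ := by
  change TT (Cl a) ≤ _
  unfold TT
  rw [Subgroup.closure_le]
  rintro s ⟨d, hd, e, he, rfl⟩
  have h3 := Cl_cube law ha d hd e he
  have hdi : d⁻¹ = d := inv_eq_of_mul_eq_one_right (Cl_sq ha d hd)
  have hei : e⁻¹ = e := inv_eq_of_mul_eq_one_right (Cl_sq ha e he)
  have h1 : ⁅e, d⁆ = d * e := by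
    rw [commutatorElement_def, hdi, hei]
    have h4 : (e * d * e * d) * (d * e) ^ 3 = d * e := by
      have hdd := Cl_sq ha d hd
      have hee := Cl_sq ha e he
      have hdd' : ∀ t, d * (d * t) = t := fun t => by rw [← mul_assoc, hdd, one_mul]
      have hee' : ∀ t, e * (e * t) = t := fun t => by rw [← mul_assoc, hee, one_mul]
      simp only [pow_succ, pow_zero, one_mul, mul_assoc, hdd', hee']
    rw [h3, mul_one] at h4
    exact h4
  rw [← h1, normalClosure_eq]
  exact Subgroup.commutator_mem_commutator (Subgroup.subset_closure he)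
    (Subgroup.subset_closure hd)

theorem map_derived (law : Law G) {a : G} (ha : a * a = 1) (n : ℕ) :
    (derivedSeries (Subgroup.normalClosure {a}) (n + 1)).map
      (Subgroup.normalClosure {a}).subtype = Tn a n := by
  induction n with
  | zero =>
    rw [derivedSeries_one, Subgroup.map_subtype_commutator]
    exact le_antisymm (comm_ncl_le a ha) (Tn_zero_le law ha)
  | succ n ih =>
    rw [derivedSeries_succ, Subgroup.map_commutator, ih]
    rfl

end ncl

end Pool.Agent.Lib.MP_107960_al.H11
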