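import Mathlib
import Pool.Agent.Lib.MP_107960_al.H11.Local

set_option autoImplicit false

open scoped commutatorElement

namespace Pool.Agent.Lib.MP_107960_al.H11

variable {G : Type*} [Group G]

/-- derived series of a subgroup, inside `G`. -/
def dS (N : Subgroup G) : ℕ → Subgroup G
  | 0 => N
  | n + 1 => ⁅dS N n, dS N n⁆

theorem Tn_eq_dS (a : G) (n : ℕ) : Tn a n = dS (TT (Cl a)) n := by
  induction n with
  | zero => rfl
  | succ n ih => change ⁅Tn a n, Tn a n⁆ = ⁅_, _⁆; rw [ih]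

theorem dS_mono {M N : Subgroup G} (h : M ≤ N) (n : ℕ) : dS M n ≤ dS N n := by
  induction n with
  | zero => exact h
  | succ n ih => exact Subgroup.commutator_mono ih ih

theorem dS_add (M : Subgroup G) (m n : ℕ) : dS M (m + n) = dS (dS M m) n := by
  induction n with
  | zero => rfl
  | succ n ih => change ⁅dS M (m + n), dS M (m + n)⁆ = ⁅_, _⁆; rw [ih]

theorem comm_sup_le (X Y M : Subgroup G) [M.Normal] : ⁅X ⊔ M, Y ⊔ M⁆ ≤ ⁅X, Y⁆ ⊔ M := by
  set φ := QuotientGroup.mk' M with hφ
  have hk : φ.ker = M := by rw [hφ, QuotientGroup.ker_mk']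
  have h1 : (⁅X ⊔ M, Y ⊔ M⁆).map φ = (⁅X, Y⁆).map φ := by
    have hM : M.map φ = ⊥ := by rw [Subgroup.map_eq_bot_iff, hk]
    rw [Subgroup.map_commutator, Subgroup.map_commutator, Subgroup.map_sup, Subgroup.map_sup,
      hM, sup_bot_eq, sup_bot_eq]
  have h2 : ⁅X ⊔ M, Y ⊔ M⁆ ≤ ((⁅X, Y⁆).map φ).comap φ := by
    rw [← Subgroup.map_le_iff_le_comap, h1]
  rwa [Subgroup.comap_map_eq, hk] at h2

theorem dS_sup_le (X M : Subgroup G) [M.Normal] (n : ℕ) : dS (X ⊔ M) n ≤ dS X n ⊔ M := by
  induction n with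
  | zero => exact le_rfl
  | succ n ih => exact (Subgroup.commutator_mono ih ih).trans (comm_sup_le _ _ _)

/-- the product of the groups `T_a`. -/
def MS (S : List G) : Subgroup G := S.foldr (fun a M => TT (Cl a) ⊔ M) ⊥

instance MS_normal (S : List G) : (MS S).Normal := by
  induction S with
  | nil => exact (inferInstance : (⊥ : Subgroup G).Normal)
  | cons a S ih =>
    have h1 : (TT (Cl a)).Normal := TT_normal (fun d hd g => Cl_conj d hd g)
    have h2 : MS (a :: S) = TT (Cl a) ⊔ MS S := rfl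
    rw [h2]
    exact Subgroup.sup_normal _ _

theorem TT_le_MS {S : List G} {a : G} (ha : a ∈ S) : TT (Cl a) ≤ MS S := by
  induction S with
  | nil => simp at ha
  | cons b S ih =>
    change _ ≤ TT (Cl b) ⊔ MS S
    rcases List.mem_cons.mp ha with rfl | h
    · exact le_sup_left
    · exact (ih h).trans le_sup_right

/-- the product of the groups `T_a^(5)`. -/
def PS (S : List G) : Subgroup G := S.foldr (fun a M => Tn a 5 ⊔ M) ⊥

instance PS_normal (S : List G) : (PS S).Normal := by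
  induction S with
  | nil => exact (inferInstance : (⊥ : Subgroup G).Normal)
  | cons a S ih =>
    have h2 : PS (a :: S) = Tn a 5 ⊔ PS S := rfl
    rw [h2]
    exact Subgroup.sup_normal _ _

theorem PS_bot (S : List G) (h : ∀ a ∈ S, Tn a 5 = ⊥) : PS S = ⊥ := by
  induction S with
  | nil => rfl
  | cons a S ih =>
    change Tn a 5 ⊔ PS S = ⊥
    rw [h a (by simp), ih (fun b hb => h b (by simp [hb])), bot_sup_eq]

theorem PS_perfect (law : Law G) (S : List G) (hS : ∀ a ∈ S, a * a = 1) :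
    PS S ≤ ⁅PS S, PS S⁆ := by
  induction S with
  | nil => exact bot_le
  | cons a S ih =>
    change Tn a 5 ⊔ PS S ≤ ⁅Tn a 5 ⊔ PS S, Tn a 5 ⊔ PS S⁆
    refine sup_le ?_ ?_
    · have h1 : Tn a 5 = ⁅Tn a 5, Tn a 5⁆ := T5_eq_T6 law (hS a (by simp))
      nth_rewrite 1 [h1]
      exact Subgroup.commutator_mono le_sup_left le_sup_left
    · exact (ih (fun b hb => hS b (by simp [hb]))).trans
        (Subgroup.commutator_mono le_sup_right le_sup_right)

theorem PS_le_derived (law : Law G) (S : List G) (hS : ∀ a ∈ S, a * a = 1) (n : ℕ) :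
    PS S ≤ derivedSeries G n := by
  induction n with
  | zero => rw [derivedSeries_zero]; exact le_top
  | succ n ih =>
    rw [derivedSeries_succ]
    exact (PS_perfect law S hS).trans (Subgroup.commutator_mono ih ih)

theorem dS_step (a : G) (M : Subgroup G) [M.Normal] : dS (TT (Cl a) ⊔ M) 5 ≤ M ⊔ Tn a 5 := by
  have h2 := dS_sup_le (TT (Cl a)) M 5
  rw [← Tn_eq_dS] at h2
  exact h2.trans (le_of_eq (sup_comm (Tn a 5) M))

theorem dS_step2 (a : G) (M P : Subgroup G) [M.Normal] {n : ℕ} (h : dS M n ≤ P) :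
    dS (TT (Cl a) ⊔ M) (5 + n) ≤ Tn a 5 ⊔ P := by
  rw [dS_add]
  refine (dS_mono (dS_step a M) n).trans ?_
  refine (dS_sup_le M (Tn a 5) n).trans ?_
  exact sup_le (h.trans le_sup_right) le_sup_left

theorem PS_cons (a : G) (S : List G) : PS (a :: S) = Tn a 5 ⊔ PS S := rfl

theorem MS_cons (a : G) (S : List G) : MS (a :: S) = TT (Cl a) ⊔ MS S := rfl

theorem dS_MS_cons (a : G) (S : List G) (ih : dS (MS S) (5 * S.length) ≤ PS S) :
    dS (MS (a :: S)) (5 + 5 * S.length) ≤ PS (a :: S) := by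
  rw [MS_cons, PS_cons]
  exact dS_step2 a (MS S) (PS S) ih

theorem dS_MS (S : List G) : dS (MS S) (5 * S.length) ≤ PS S := by
  induction S with
  | nil =>
    rw [List.length_nil, mul_zero]
    exact bot_le
  | cons a S ih =>
    have h3 : 5 * (a :: S).length = 5 + 5 * S.length := by
      rw [List.length_cons, mul_add, add_comm]
    rw [h3]
    exact dS_MS_cons a S ih

theorem pow_T (law : Law G) {a : G} (ha : a * a = 1) {x : G} (hx : x ∈ TT (Cl a)) :
    x ^ (3 ^ 5) ∈ Tn a 5 := by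
  have h1 := cube_Tn law ha 0 (x := x) hx
  have h2 := cube_Tn law ha 1 h1
  have h3 := cube_Tn law ha 2 h2
  have h4 := cube_Tn law ha 3 h3
  have h5 := cube_Tn law ha 4 h4
  have e : x ^ (3 ^ 5) = ((((x ^ 3) ^ 3) ^ 3) ^ 3) ^ 3 := by
    simp only [pow_succ (3 : ℕ), pow_zero, one_mul, pow_mul]
  rw [e]; exact h5

theorem pow_sup {A M B : Subgroup G} [M.Normal] {m : ℕ} (h1 : ∀ t ∈ A, t ^ m ∈ B) :
    ∀ x ∈ A ⊔ M, x ^ m ∈ B ⊔ M := by
  intro x hx
  set φ := QuotientGroup.mk' M with hφ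
  have hk : φ.ker = M := by rw [hφ, QuotientGroup.ker_mk']
  have h3 : φ x ∈ A.map φ := by
    have h4 : φ x ∈ (A ⊔ M).map φ := Subgroup.mem_map_of_mem φ hx
    have hM : M.map φ = ⊥ := by rw [Subgroup.map_eq_bot_iff, hk]
    rwa [Subgroup.map_sup, hM, sup_bot_eq] at h4
  obtain ⟨t, ht, htx⟩ := h3
  have h5 : x ^ m ∈ (B.map φ).comap φ := by
    rw [Subgroup.mem_comap, map_pow, ← htx, ← map_pow]
    exact Subgroup.mem_map_of_mem φ (h1 t ht)
  rwa [Subgroup.comap_map_eq, hk] at h5

theorem pow_MS (law : Law G) (S : List G) (hS : ∀ a ∈ S, a * a = 1) :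
    ∀ x ∈ MS S, x ^ (3 ^ (5 * S.length)) ∈ PS S := by
  induction S with
  | nil =>
    intro x hx
    have : x = 1 := by
      change x ∈ (⊥ : Subgroup G) at hx
      exact Subgroup.mem_bot.mp hx
    rw [this, one_pow]
    exact Subgroup.one_mem _
  | cons a S ih =>
    have hS' : ∀ b ∈ S, b * b = 1 := fun b hb => hS b (by simp [hb])
    intro x hx
    change x ∈ TT (Cl a) ⊔ MS S at hx
    have h1 : x ^ (3 ^ 5) ∈ Tn a 5 ⊔ MS S :=
      pow_sup (A := TT (Cl a)) (M := MS S) (B := Tn a 5) (m := 3 ^ 5)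
        (fun t ht => pow_T law (hS a (by simp)) ht) x hx
    rw [sup_comm] at h1
    have h2 := pow_sup (A := MS S) (M := Tn a 5) (B := PS S) (m := 3 ^ (5 * S.length))
        (fun t ht => ih hS' t ht) _ h1
    rw [sup_comm] at h2
    have h3 : 5 * (a :: S).length = 5 + 5 * S.length := by
      rw [List.length_cons, mul_add, add_comm]
    rw [h3, pow_add, pow_mul]
    exact h2

theorem commutator_le_MS (S : List G) (hS : ∀ a ∈ S, a * a = 1)
    (hgen : Subgroup.normalClosure {a | a ∈ S} = ⊤) : commutator G ≤ MS S := by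
  set φ := QuotientGroup.mk' (MS S) with hφ
  have hker : ∀ t, t ∈ MS S ↔ φ t = 1 := fun t => by
    rw [← MonoidHom.mem_ker, hφ, QuotientGroup.ker_mk']
  have hsurj : Function.Surjective φ := QuotientGroup.mk'_surjective _
  have h1 : Subgroup.normalClosure {a | a ∈ S} ≤ (Subgroup.center (G ⧸ MS S)).comap φ := by
    refine Subgroup.normalClosure_le_normal ?_
    intro a ha
    have ha' : a ∈ S := ha
    have hai : a⁻¹ = a := inv_eq_of_mul_eq_one_right (hS a ha')
    change φ a ∈ Subgroup.center _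
    rw [Subgroup.mem_center_iff]
    intro y
    obtain ⟨g, rfl⟩ := hsurj y
    have h2 : ⁅g, a⁆ ∈ MS S := by
      refine TT_le_MS ha' ?_
      rw [commutatorElement_def, hai]
      exact Subgroup.subset_closure ⟨g * a * g⁻¹, ⟨g, rfl⟩, a, ⟨1, by group⟩, rfl⟩
    rw [hker, map_commutatorElement, commutatorElement_eq_one_iff_mul_comm] at h2
    exact h2
  rw [hgen, top_le_iff] at h1
  rw [commutator_def, Subgroup.commutator_le]
  intro g _ h _
  rw [hker, map_commutatorElement, commutatorElement_eq_one_iff_mul_comm]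
  have h2 : h ∈ (Subgroup.center (G ⧸ MS S)).comap φ := by rw [h1]; trivial
  exact (Subgroup.mem_center_iff.mp h2 (φ g))

theorem derived_le (S : List G) (hS : ∀ a ∈ S, a * a = 1)
    (hgen : Subgroup.normalClosure {a | a ∈ S} = ⊤) (n : ℕ) :
    derivedSeries G (n + 1) ≤ dS (MS S) n := by
  induction n with
  | zero => rw [derivedSeries_one]; exact commutator_le_MS S hS hgen
  | succ n ih =>
    rw [derivedSeries_succ]
    exact Subgroup.commutator_mono ih ih

/-- The combined statement for lists. -/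
theorem main_list (law : Law G) (S : List G) (hS : ∀ a ∈ S, a * a = 1)
    (hgen : Subgroup.normalClosure {a | a ∈ S} = ⊤) :
    derivedSeries G (5 * S.length + 1) = derivedSeries G (5 * S.length + 2) ∧
    (∀ x ∈ commutator G, x ^ 3 ^ (5 * S.length) ∈ derivedSeries G (5 * S.length + 1)) ∧
    ((∀ a ∈ S, ∀ H : Subgroup G, H.FG → H ≤ Subgroup.normalClosure {a} →
        Group.ResiduallyFinite H) →
      derivedSeries G (5 * S.length + 1) = ⊥ ∧
        ∀ x ∈ commutator G, x ^ 3 ^ (5 * S.length) = 1) := by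
  have h1 : derivedSeries G (5 * S.length + 1) ≤ PS S :=
    (derived_le S hS hgen _).trans (dS_MS S)
  have h2 : ∀ x ∈ commutator G, x ^ 3 ^ (5 * S.length) ∈ PS S := fun x hx =>
    pow_MS law S hS x (commutator_le_MS S hS hgen hx)
  refine ⟨le_antisymm (h1.trans (PS_le_derived law S hS _))
    (derivedSeries_antitone G (Nat.le_succ _)),
    fun x hx => PS_le_derived law S hS _ (h2 x hx), ?_⟩
  intro hfin
  have h3 : PS S = ⊥ := by
    refine PS_bot S fun a ha => ?_
    refine Tn_locResFin law (hS a ha) (Subgroup.normalClosure {a}) ?_ (hfin a ha)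
    rw [normalClosure_eq]
    exact Subgroup.subset_closure
  rw [h3] at h1 h2
  exact ⟨le_bot_iff.mp h1, fun x hx => Subgroup.mem_bot.mp (h2 x hx)⟩

end Pool.Agent.Lib.MP_107960_al.H11
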