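import Mathlib
import Pool.Agent.Lib.MP_107960_al.H11.Multi

set_option autoImplicit false

open scoped commutatorElement

namespace Pool.Agent.Lib.MP_107960_al.H11

variable {G : Type*} [Group G]

/-- three subgroups lemma for normal subgroups -/
theorem three_sub_sup (A B C : Subgroup G) [A.Normal] [B.Normal] [C.Normal] :
    ⁅⁅A, B⁆, C⁆ ≤ ⁅⁅B, C⁆, A⁆ ⊔ ⁅⁅C, A⁆, B⁆ := by
  set K := ⁅⁅B, C⁆, A⁆ ⊔ ⁅⁅C, A⁆, B⁆ with hK
  have : K.Normal := Subgroup.sup_normal _ _
  set φ := QuotientGroup.mk' K with hφ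
  have h := Subgroup.commutator_commutator_eq_bot_of_rotate (H₁ := A.map φ) (H₂ := B.map φ)
    (H₃ := C.map φ)
    (by rw [← Subgroup.map_commutator, ← Subgroup.map_commutator, Subgroup.map_eq_bot_iff,
          QuotientGroup.ker_mk']
        exact le_sup_left)
    (by rw [← Subgroup.map_commutator, ← Subgroup.map_commutator, Subgroup.map_eq_bot_iff,
          QuotientGroup.ker_mk']
        exact le_sup_right)
  rw [← Subgroup.map_commutator, ← Subgroup.map_commutator, Subgroup.map_eq_bot_iff,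
    QuotientGroup.ker_mk'] at h
  exact h

theorem comm_sup_right (X A B : Subgroup G) [X.Normal] [A.Normal] [B.Normal] :
    ⁅X, A ⊔ B⁆ ≤ ⁅X, A⁆ ⊔ ⁅X, B⁆ := by
  set K := ⁅X, A⁆ ⊔ ⁅X, B⁆ with hK
  have : K.Normal := Subgroup.sup_normal _ _
  set φ := QuotientGroup.mk' K with hφ
  have h1 : ⁅A.map φ, X.map φ⁆ = ⊥ := by
    rw [Subgroup.commutator_comm, ← Subgroup.map_commutator, Subgroup.map_eq_bot_iff,
      QuotientGroup.ker_mk']
    exact le_sup_left
  have h2 : ⁅B.map φ, X.map φ⁆ = ⊥ := by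
    rw [Subgroup.commutator_comm, ← Subgroup.map_commutator, Subgroup.map_eq_bot_iff,
      QuotientGroup.ker_mk']
    exact le_sup_right
  have h3 : ⁅A.map φ ⊔ B.map φ, X.map φ⁆ = ⊥ := by
    rw [Subgroup.commutator_eq_bot_iff_le_centralizer] at h1 h2 ⊢
    exact sup_le h1 h2
  rw [Subgroup.commutator_comm, ← Subgroup.map_sup, ← Subgroup.map_commutator,
    Subgroup.map_eq_bot_iff, QuotientGroup.ker_mk'] at h3
  exact h3

/-- `[X, K, ..., K]` with `n` copies of `K`. -/
def itc (X K : Subgroup G) : ℕ → Subgroup G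
  | 0 => X
  | n + 1 => ⁅itc X K n, K⁆

theorem itc_mono {X X' K K' : Subgroup G} (hX : X ≤ X') (hK : K ≤ K') (n : ℕ) :
    itc X K n ≤ itc X' K' n := by
  induction n with
  | zero => exact hX
  | succ n ih => exact Subgroup.commutator_mono ih hK

theorem itc_add (X K : Subgroup G) (m n : ℕ) : itc X K (m + n) = itc (itc X K m) K n := by
  induction n with
  | zero => rfl
  | succ n ih => change ⁅itc X K (m + n), K⁆ = ⁅_, _⁆; rw [ih]

instance itc_normal (X K : Subgroup G) [X.Normal] [K.Normal] (n : ℕ) : (itc X K n).Normal := by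
  induction n with
  | zero => assumption
  | succ n ih => exact (inferInstance : (⁅itc X K n, K⁆).Normal)

instance dS_normal (X : Subgroup G) [X.Normal] (n : ℕ) : (dS X n).Normal := by
  induction n with
  | zero => assumption
  | succ n ih => exact (inferInstance : (⁅dS X n, dS X n⁆).Normal)

theorem itc_succ_le (X K : Subgroup G) [X.Normal] [K.Normal] (n : ℕ) :
    itc X K (n + 1) ≤ itc X K n := Subgroup.commutator_le_left _ _

theorem itc_antitone (X K : Subgroup G) [X.Normal] [K.Normal] {m n : ℕ} (h : m ≤ n) :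
    itc X K n ≤ itc X K m := by
  induction n, h using Nat.le_induction with
  | base => exact le_rfl
  | succ n _ ih => exact (itc_succ_le X K n).trans ih

theorem itc_comm (T : Subgroup G) [T.Normal] (m n : ℕ) :
    ⁅itc T T m, itc T T n⁆ ≤ itc T T (m + n + 1) := by
  induction n generalizing m with
  | zero => exact le_rfl
  | succ n ih =>
    change ⁅itc T T m, ⁅itc T T n, T⁆⁆ ≤ _
    rw [Subgroup.commutator_comm]
    refine (three_sub_sup _ _ _).trans (sup_le ?_ ?_)
    · rw [Subgroup.commutator_comm T (itc T T m)]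
      have := ih (m + 1)
      have e : m + 1 + n + 1 = m + (n + 1) + 1 := by ring
      rw [e] at this
      exact this
    · exact Subgroup.commutator_mono (ih m) le_rfl

theorem dS_le_itc (T : Subgroup G) [T.Normal] (i : ℕ) : dS T i ≤ itc T T (2 ^ i - 1) := by
  induction i with
  | zero => exact le_rfl
  | succ i ih =>
    refine (Subgroup.commutator_mono ih ih).trans ?_
    refine (itc_comm T _ _).trans (le_of_eq ?_)
    congr 1
    have : 1 ≤ 2 ^ i := Nat.one_le_two_pow
    rw [pow_succ]; omega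

theorem itc_le_dS (T : Subgroup G) (M : ℕ) (hM : ∀ i, itc (dS T (i + 1)) T M ≤ dS T (i + 2))
    (i : ℕ) : itc T T (1 + M * i) ≤ dS T (i + 1) := by
  induction i with
  | zero => exact le_rfl
  | succ i ih =>
    have e : 1 + M * (i + 1) = (1 + M * i) + M := by ring
    rw [e, itc_add]
    exact (itc_mono ih le_rfl M).trans (hM i)

theorem pow_gt (M : ℕ) : 1 + M * (M + 2) < 2 ^ (M + 3) - 1 := by
  have h : M * M + 2 * M + 3 ≤ 2 ^ (M + 3) := by
    induction M with
    | zero => norm_num
    | succ M ih =>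
      have e : 2 ^ (M + 1 + 3) = 2 * 2 ^ (M + 3) := by ring
      have h8 : 2 ^ (M + 3) = 8 * 2 ^ M := by ring
      have h3 : M + 1 ≤ 2 ^ M := Nat.lt_two_pow_self
      nlinarith
  have e : M * (M + 2) = M * M + 2 * M := by ring
  omega

theorem dS_antitone (T : Subgroup G) {m n : ℕ} (h : m ≤ n) : dS T n ≤ dS T m := by
  induction n, h using Nat.le_induction with
  | base => exact le_rfl
  | succ n _ ih => exact (Subgroup.commutator_le_self _).trans ih

/-- a nilpotent normal subgroup `T` with `[T^(i+1), T, ..., T] ≤ T^(i+2)` (`M` copies of `T`)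
has bounded derived length -/
theorem bounded_der (T : Subgroup G) [T.Normal] (M : ℕ)
    (hM : ∀ i, itc (dS T (i + 1)) T M ≤ dS T (i + 2)) (hn : ∃ n, itc T T n = ⊥) :
    dS T (M + 3) = ⊥ := by
  obtain ⟨n, hn⟩ := hn
  set k := M + 2 with hk
  have h1 : itc T T (1 + M * k) ≤ dS T (k + 1) := itc_le_dS T M hM k
  have h2 : dS T (k + 1) ≤ itc T T (1 + M * k + 1) :=
    (dS_le_itc T (k + 1)).trans (itc_antitone T T (by
      have := pow_gt M
      have e : k + 1 = M + 3 := rfl
      have e2 : M * k = M * (M + 2) := rfl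
      rw [e, e2]; omega))
  have h3 : itc T T (1 + M * k) = itc T T (1 + M * k + 1) :=
    le_antisymm (h1.trans h2) (itc_succ_le T T _)
  have h4 : ∀ j, itc T T (1 + M * k + j) = itc T T (1 + M * k) := by
    intro j
    induction j with
    | zero => rfl
    | succ j ih =>
      change ⁅itc T T (1 + M * k + j), T⁆ = _
      rw [ih]; exact h3.symm
  have h5 : itc T T (1 + M * k) = ⊥ := by
    rw [← h4 n]
    exact le_bot_iff.1 ((itc_antitone T T (by omega)).trans hn.le)
  exact le_bot_iff.1 (h2.trans (by rw [← h3, h5]))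

/-- `γ_3(G)` -/
def gam3 (G : Type*) [Group G] : Subgroup G :=
  ⁅⁅(⊤ : Subgroup G), (⊤ : Subgroup G)⁆, (⊤ : Subgroup G)⁆

instance gam3_normal : (gam3 G).Normal := by unfold gam3; infer_instance

theorem dS_two_le : dS (⊤ : Subgroup G) 2 ≤ gam3 G :=
  Subgroup.commutator_mono le_rfl le_top

theorem nil_case (M : ℕ)
    (h : ∀ i, 1 ≤ i → itc (dS (⊤ : Subgroup G) i) (gam3 G) M ≤ dS ⊤ (i + 1))
    (hn : ∃ n, itc (⊤ : Subgroup G) ⊤ n = ⊥) : dS (⊤ : Subgroup G) (M + 5) = ⊥ := by
  obtain ⟨n, hn⟩ := hn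
  have e : M + 5 = 2 + (M + 3) := by ring
  rw [e, dS_add]
  apply bounded_der
  · intro i
    rw [← dS_add, ← dS_add]
    refine (itc_mono le_rfl dS_two_le M).trans ?_
    have := h (2 + (i + 1)) (by omega)
    exact this
  · exact ⟨n, le_bot_iff.1 ((itc_mono le_top le_top n).trans hn.le)⟩

/-- product of an abelian and a nilpotent normal subgroup -/
theorem fitting (A B : Subgroup G) [A.Normal] [B.Normal] (hA : ⁅A, A⁆ = ⊥)
    (hB : ∃ n, itc B B n = ⊥) : ∃ n, itc (A ⊔ B) (A ⊔ B) n = ⊥ := by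
  obtain ⟨k, hk⟩ := hB
  have h1 : ∀ n, itc (A ⊔ B) (A ⊔ B) n ≤ itc B B n ⊔ A := by
    intro n
    induction n with
    | zero => exact (sup_comm A B).le
    | succ n ih =>
      refine (Subgroup.commutator_mono ih (sup_comm A B).le).trans ?_
      exact comm_sup_le _ _ _
  have h2 : ∀ j, itc A (A ⊔ B) j ≤ itc A B j := by
    intro j
    induction j with
    | zero => exact le_rfl
    | succ j ih =>
      refine (Subgroup.commutator_mono ih le_rfl).trans ((comm_sup_right _ _ _).trans ?_)
      refine sup_le ?_ le_rfl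
      have : ⁅itc A B j, A⁆ ≤ ⁅A, A⁆ :=
        Subgroup.commutator_mono (itc_antitone A B (Nat.zero_le j)) le_rfl
      rw [hA] at this
      exact this.trans bot_le
  have h3 : itc A B (k + 1) = ⊥ := by
    have : itc A B (1 + k) = itc (itc A B 1) B k := itc_add A B 1 k
    rw [add_comm, this]
    have h4 : itc A B 1 ≤ B := Subgroup.commutator_le_right A B
    exact le_bot_iff.1 ((itc_mono h4 le_rfl k).trans hk.le)
  refine ⟨k + (k + 1), ?_⟩
  rw [itc_add]
  have h5 : itc (A ⊔ B) (A ⊔ B) k ≤ A := by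
    refine (h1 k).trans ?_
    rw [hk, bot_sup_eq]
  exact le_bot_iff.1 ((itc_mono h5 le_rfl (k + 1)).trans ((h2 (k + 1)).trans h3.le))

end Pool.Agent.Lib.MP_107960_al.H11
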