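import Mathlib
import Pool.Agent.Lib.MP_107960_al.H11.Bounded
import Pool.Agent.Lib.MP_107960_al.H44.LocFin

set_option autoImplicit false

open scoped commutatorElement

universe u

namespace Pool.Agent.Lib.MP_107960_al.H11F

open Pool.Agent.Lib.MP_107960_al.H44
open Pool.Agent.Lib.MP_107960_al.H11 (dS dS_mono dS_add comm_sup_le dS_sup_le itc itc_mono
  itc_add gam3 nil_case fitting dS_normal)

variable {G : Type*} [Group G]

/-- the subgroup generated by the elements with abelian normal closure -/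
def A1 (G : Type*) [Group G] : Subgroup G := Subgroup.closure {y | ∀ g, Commute y (cj y g)}

theorem map_dS {H : Type*} [Group H] (f : G →* H) (K : Subgroup G) (n : ℕ) :
    (dS K n).map f = dS (K.map f) n := by
  induction n with
  | zero => rfl
  | succ n ih =>
    change (⁅dS K n, dS K n⁆).map f = ⁅_, _⁆
    rw [Subgroup.map_commutator, ih]

theorem dS_top (K : Subgroup G) (n : ℕ) :
    (dS (⊤ : Subgroup K) n).map K.subtype = dS K n := by
  rw [map_dS]
  congr 1
  rw [← MonoidHom.range_eq_map, Subgroup.range_subtype]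

theorem dS_eq_bot (K : Subgroup G) (n : ℕ) (h : dS (⊤ : Subgroup K) n = ⊥) : dS K n = ⊥ := by
  rw [← dS_top, h, Subgroup.map_bot]

theorem mem_dS_closure (Y : Set G) (n : ℕ) :
    ∀ x ∈ dS (Subgroup.closure Y) n,
      ∃ s : Set G, s.Finite ∧ s ⊆ Y ∧ x ∈ dS (Subgroup.closure s) n := by
  induction n with
  | zero =>
    intro x hx
    change x ∈ Subgroup.closure Y at hx
    change ∃ s : Set G, s.Finite ∧ s ⊆ Y ∧ x ∈ Subgroup.closure s
    induction hx using Subgroup.closure_induction with
    | mem x hx => exact ⟨{x}, Set.finite_singleton x, by simpa using hx,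
        Subgroup.subset_closure rfl⟩
    | one => exact ⟨∅, Set.finite_empty, by simp, Subgroup.one_mem _⟩
    | mul x x' hx hx' ih ih' =>
      obtain ⟨U, a, b, c⟩ := ih
      obtain ⟨U', a', b', c'⟩ := ih'
      exact ⟨U ∪ U', a.union a', Set.union_subset b b', Subgroup.mul_mem _
        (Subgroup.closure_mono Set.subset_union_left c)
        (Subgroup.closure_mono Set.subset_union_right c')⟩
    | inv x hx ih =>
      obtain ⟨U, a, b, c⟩ := ih
      exact ⟨U, a, b, Subgroup.inv_mem _ c⟩
  | succ n IH =>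
    intro x hx
    change x ∈ ⁅dS (Subgroup.closure Y) n, dS (Subgroup.closure Y) n⁆ at hx
    rw [Subgroup.commutator_def] at hx
    change ∃ s : Set G, s.Finite ∧ s ⊆ Y ∧
      x ∈ ⁅dS (Subgroup.closure s) n, dS (Subgroup.closure s) n⁆
    induction hx using Subgroup.closure_induction with
    | mem x hx =>
      obtain ⟨a, ha, b, hb, rfl⟩ := hx
      obtain ⟨U, u1, u2, u3⟩ := IH a ha
      obtain ⟨V, v1, v2, v3⟩ := IH b hb
      exact ⟨U ∪ V, u1.union v1, Set.union_subset u2 v2, Subgroup.commutator_mem_commutator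
        (dS_mono (Subgroup.closure_mono Set.subset_union_left) n u3)
        (dS_mono (Subgroup.closure_mono Set.subset_union_right) n v3)⟩
    | one => exact ⟨∅, Set.finite_empty, by simp, Subgroup.one_mem _⟩
    | mul x x' hx hx' ih ih' =>
      obtain ⟨U, a, b, c⟩ := ih
      obtain ⟨U', a', b', c'⟩ := ih'
      have h1 := dS_mono (Subgroup.closure_mono (Set.subset_union_left (s := U) (t := U'))) n
      have h2 := dS_mono (Subgroup.closure_mono (Set.subset_union_right (s := U) (t := U'))) n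
      exact ⟨U ∪ U', a.union a', Set.union_subset b b', Subgroup.mul_mem _
        (Subgroup.commutator_mono h1 h1 c) (Subgroup.commutator_mono h2 h2 c')⟩
    | inv x hx ih =>
      obtain ⟨U, a, b, c⟩ := ih
      exact ⟨U, a, b, Subgroup.inv_mem _ c⟩

theorem ncl_abelian {y : G} (h : ∀ g, Commute y (cj y g)) :
    ⁅Subgroup.normalClosure {y}, Subgroup.normalClosure {y}⁆ = ⊥ := by
  have h1 : Subgroup.normalClosure {y} ≤ Subgroup.centralizer {y} := by
    unfold Subgroup.normalClosure
    rw [Subgroup.closure_le]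
    intro x hx
    rw [Group.mem_conjugatesOfSet_iff] at hx
    obtain ⟨a, ha, hax⟩ := hx
    rw [Set.mem_singleton_iff] at ha
    rw [ha] at hax
    obtain ⟨g, rfl⟩ := isConj_iff.1 hax
    have h2 := (h g⁻¹).eq
    rw [SetLike.mem_coe, Subgroup.mem_centralizer_iff]
    intro z hz
    rw [Set.mem_singleton_iff] at hz
    rw [hz]
    simpa [cj] using h2
  rw [Subgroup.commutator_eq_bot_iff_le_centralizer]
  apply Subgroup.normalClosure_le_normal
  intro x hx
  rw [Set.mem_singleton_iff] at hx
  rw [SetLike.mem_coe, Subgroup.mem_centralizer_iff]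
  intro z hz
  have h3 := h1 hz
  rw [Subgroup.mem_centralizer_iff] at h3
  rw [hx]
  exact (h3 y rfl).symm

theorem nil_of_finite (s : Set G) (hs : s.Finite) (hc : ∀ y ∈ s, ∀ g, Commute y (cj y g)) :
    ∃ n, itc (Subgroup.normalClosure s) (Subgroup.normalClosure s) n = ⊥ := by
  induction s, hs using Set.Finite.induction_on with
  | empty => exact ⟨0, by
      change Subgroup.normalClosure (∅ : Set G) = ⊥
      simp⟩
  | @insert y s hy hs ih =>
    obtain h1 := ih (fun z hz => hc z (Set.mem_insert_of_mem y hz))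
    obtain ⟨n, hn⟩ := fitting (Subgroup.normalClosure {y}) (Subgroup.normalClosure s)
      (ncl_abelian (hc y (Set.mem_insert y s))) h1
    refine ⟨n, le_bot_iff.1 (le_trans ?_ hn.le)⟩
    have hle : Subgroup.normalClosure (insert y s) ≤
        Subgroup.normalClosure {y} ⊔ Subgroup.normalClosure s := by
      have : (Subgroup.normalClosure {y} ⊔ Subgroup.normalClosure s).Normal :=
        Subgroup.sup_normal _ _
      apply Subgroup.normalClosure_le_normal
      intro x hx
      rcases hx with hx | hx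
      · rw [hx]
        exact (le_sup_left : Subgroup.normalClosure {y} ≤ _)
          (Subgroup.subset_normalClosure rfl)
      · exact (le_sup_right : Subgroup.normalClosure s ≤
          Subgroup.normalClosure {y} ⊔ Subgroup.normalClosure s)
          (Subgroup.subset_normalClosure hx)
    exact itc_mono hle hle n

theorem law_sub (law : Law G) (K : Subgroup G) : Law K := by
  intro x y
  apply Subtype.ext
  have := law (x : G) y
  simpa [cm] using this

/-- the layer statement: the group `N^(i)/N^(i+1)` is killed by `M` factors from `γ_3(N) - 1` -/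
def Layer (M : ℕ) : Prop := ∀ (N : Type u) [Group N], Law N → A1 N = ⊤ →
  ∀ i, 1 ≤ i → itc (dS (⊤ : Subgroup N) i) (gam3 N) M ≤ dS (⊤ : Subgroup N) (i + 1)

/-- Theorem F -/
def ThmF (d : ℕ) : Prop := ∀ (N : Type u) [Group N], Law N → A1 N = ⊤ →
  dS (⊤ : Subgroup N) d = ⊥

theorem closure_top (K : Subgroup G) (s : Set G) (hs : Subgroup.closure s = K) :
    Subgroup.closure ((fun x : K => (x : G)) ⁻¹' s) = ⊤ := by
  subst hs
  exact Subgroup.closure_closure_coe_preimage

theorem F_of_layer (M : ℕ) (H : Layer.{u} M) : ThmF.{u} (M + 5) := by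
  intro N _ law hN
  rw [eq_bot_iff]
  intro x hx
  have hx' : x ∈ dS (Subgroup.closure {y : N | ∀ g, Commute y (cj y g)}) (M + 5) := by
    have : Subgroup.closure {y : N | ∀ g, Commute y (cj y g)} = ⊤ := hN
    rw [this]; exact hx
  obtain ⟨s, s1, s2, s3⟩ := mem_dS_closure _ _ x hx'
  set K := Subgroup.closure s with hK
  -- the group K
  set s0 : Set K := (fun x : K => (x : N)) ⁻¹' s with hs0
  have t1 : s0.Finite := s1.preimage (Subtype.val_injective.injOn)
  have t2 : ∀ y ∈ s0, ∀ g : K, Commute y (cj y g) := by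
    intro y hy g
    have := s2 hy (g : N)
    apply Subtype.ext
    simpa [cj] using this.eq
  have t3 : Subgroup.closure s0 = ⊤ := closure_top K s hK.symm
  have t4 : Subgroup.normalClosure s0 = ⊤ := by
    rw [eq_top_iff, ← t3]
    exact Subgroup.closure_le_normalClosure
  have t5 : A1 K = ⊤ := by
    rw [eq_top_iff, ← t3]
    exact Subgroup.closure_mono t2
  have t6 := nil_of_finite s0 t1 t2
  rw [t4] at t6
  have t7 := nil_case M (H K (law_sub law K) t5) t6
  have t8 := dS_eq_bot K _ t7
  rw [t8] at s3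
  exact s3

instance A1_normal : (A1 G).Normal := by
  refine ⟨?_⟩
  intro n hn g
  unfold A1 at hn ⊢
  induction hn using Subgroup.closure_induction with
  | mem x hx =>
    have e : g * x * g⁻¹ = cj x g⁻¹ := by simp [cj]
    rw [e]
    apply Subgroup.subset_closure
    intro h
    have h1 := commute_cj (hx (g⁻¹ * h * g)) g⁻¹
    have e2 : cj (cj x (g⁻¹ * h * g)) g⁻¹ = cj (cj x g⁻¹) h := by
      simp [cj, mul_assoc]
    rw [e2] at h1
    exact h1
  | one => simp
  | mul x x' hx hx' ih ih' =>
    have : g * (x * x') * g⁻¹ = (g * x * g⁻¹) * (g * x' * g⁻¹) := by group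
    rw [this]; exact Subgroup.mul_mem _ ih ih'
  | inv x hx ih =>
    have : g * x⁻¹ * g⁻¹ = (g * x * g⁻¹)⁻¹ := by group
    rw [this]; exact Subgroup.inv_mem _ ih

/-- a subgroup generated by elements which have abelian normal closure in it -/
theorem sol_of_gen {d : ℕ} (F : ThmF.{u} d) {G : Type u} [Group G] (law : Law G)
    (s : Set G) (hs : ∀ y ∈ s, ∀ g ∈ Subgroup.closure s, Commute y (cj y g)) :
    dS (Subgroup.closure s) d = ⊥ := by
  apply dS_eq_bot
  apply F _ (law_sub law _)
  rw [eq_top_iff, ← closure_top (Subgroup.closure s) s rfl]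
  apply Subgroup.closure_mono
  intro y hy g
  have := hs (y : G) hy (g : G) g.2
  apply Subtype.ext
  simpa [cj] using this.eq

theorem A1_sol {d : ℕ} (F : ThmF.{u} d) {G : Type u} [Group G] (law : Law G) :
    dS (A1 G) d = ⊥ := by
  unfold A1
  exact sol_of_gen F law _ (fun y hy g _ => hy g)

/-- an abelian normal subgroup lies in `A1` -/
theorem le_A1 (S : Subgroup G) [S.Normal] (hS : ⁅S, S⁆ = ⊥) : S ≤ A1 G := by
  intro y hy
  apply Subgroup.subset_closure
  intro g
  have h1 : cj y g ∈ S := by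
    have := (inferInstance : S.Normal).conj_mem y hy g⁻¹
    simpa [cj] using this
  have h2 : ⁅y, cj y g⁆ ∈ ⁅S, S⁆ := Subgroup.commutator_mem_commutator hy h1
  rw [hS, Subgroup.mem_bot, commutatorElement_eq_one_iff_commute] at h2
  exact h2

theorem map_sSup {H : Type*} [Group H] (f : G →* H) (C : Set (Subgroup G)) :
    (sSup C).map f = sSup ((fun S => S.map f) '' C) := by
  rw [sSup_image, sSup_eq_iSup]
  simp only [Subgroup.map_iSup]

/-- products of soluble normal subgroups of bounded derived length -/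
theorem sup_sol {d : ℕ} (F : ThmF.{u} d) (k : ℕ) : ∀ (G : Type u) [Group G], Law G →
    ∀ C : Set (Subgroup G), (∀ S ∈ C, S.Normal ∧ dS S k = ⊥) → dS (sSup C) (k * d) = ⊥ := by
  induction k with
  | zero =>
    intro G _ law C hC
    have : sSup C = ⊥ := by
      rw [sSup_eq_bot]
      intro S hS
      exact (hC S hS).2
    rw [this, zero_mul]
    rfl
  | succ k ih =>
    intro G _ law C hC
    set φ := QuotientGroup.mk' (A1 G) with hφ
    have h1 := ih (G ⧸ A1 G) (law.quot (A1 G)) ((fun S => S.map φ) '' C) (by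
      rintro _ ⟨S, hS, rfl⟩
      have nS : S.Normal := (hC S hS).1
      refine ⟨nS.map φ (QuotientGroup.mk'_surjective _), ?_⟩
      change dS (S.map φ) k = ⊥
      rw [← map_dS, Subgroup.map_eq_bot_iff, hφ, QuotientGroup.ker_mk']
      exact le_A1 _ (hC S hS).2)
    rw [← map_sSup, ← map_dS, Subgroup.map_eq_bot_iff, hφ, QuotientGroup.ker_mk'] at h1
    have e : (k + 1) * d = k * d + d := by ring
    rw [e, dS_add]
    exact le_bot_iff.1 ((dS_mono h1 d).trans (A1_sol F law).le)

theorem NN_eq (z : G) (y : G) (hy : y ∈ Y z) : y ∈ NN z := Subgroup.subset_closure hy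

theorem KK_sol {d : ℕ} (F : ThmF.{u} d) {G : Type u} [Group G] (law : Law G) :
    dS (KK G) (d * d) = ⊥ := by
  set C : Set (Subgroup G) := {S | ∃ p r z : G, Hs p r z ∧ S = NN z} with hC
  have h1 := sup_sol F d G law C (by
    rintro S ⟨p, r, z, h, rfl⟩
    refine ⟨NN_normal z, ?_⟩
    exact sol_of_gen F law (Y z) (fun y hy g hg => thm2 law h hy hg))
  refine le_bot_iff.1 ((dS_mono ?_ (d * d)).trans h1.le)
  unfold KK
  rw [Subgroup.closure_le]
  rintro z ⟨p, r, h⟩
  have : NN z ≤ sSup C := le_sSup ⟨p, r, z, h, rfl⟩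
  exact this (NN_eq z z (Y_self z))

theorem commutator_le_of {N : Subgroup G} [N.Normal] (h : ∀ x y : G, cm x y ∈ N) :
    ⁅(⊤ : Subgroup G), (⊤ : Subgroup G)⁆ ≤ N := by
  rw [Subgroup.commutator_le]
  intro a _ b _
  have := h a⁻¹ b⁻¹
  simpa [cm, commutatorElement_def] using this

theorem dS_quot (N : Subgroup G) [N.Normal] (n : ℕ)
    (h : dS (⊤ : Subgroup (G ⧸ N)) n = ⊥) : dS (⊤ : Subgroup G) n ≤ N := by
  have h1 : (dS (⊤ : Subgroup G) n).map (QuotientGroup.mk' N) = ⊥ := by
    rw [map_dS]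
    have : (⊤ : Subgroup G).map (QuotientGroup.mk' N) = ⊤ :=
      Subgroup.map_top_of_surjective _ (QuotientGroup.mk'_surjective N)
    rw [this, h]
  rwa [Subgroup.map_eq_bot_iff, QuotientGroup.ker_mk'] at h1

/-- the full solution from Theorem F -/
theorem main_dS {d : ℕ} (F : ThmF.{u} d) (G : Type u) [Group G] (law : Law G) :
    dS (⊤ : Subgroup G) (1 + d + d * d + d * d) = ⊥ := by
  have law1 : Law (G ⧸ KK G) := law.quot _
  have law2 : Law ((G ⧸ KK G) ⧸ KK (G ⧸ KK G)) := law1.quot _
  -- the top quotient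
  have h2 : dS (⊤ : Subgroup ((G ⧸ KK G) ⧸ KK (G ⧸ KK G))) (1 + d) = ⊥ := by
    rw [dS_add]
    refine le_bot_iff.1 ((dS_mono ?_ d).trans (A1_sol F law2).le)
    change ⁅(⊤ : Subgroup _), (⊤ : Subgroup _)⁆ ≤ _
    apply commutator_le_of
    intro x y
    apply Subgroup.subset_closure
    intro g
    obtain ⟨x1, rfl⟩ := QuotientGroup.mk'_surjective _ x
    obtain ⟨x2, rfl⟩ := QuotientGroup.mk'_surjective _ x1
    obtain ⟨y1, rfl⟩ := QuotientGroup.mk'_surjective _ y
    obtain ⟨y2, rfl⟩ := QuotientGroup.mk'_surjective _ y1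
    obtain ⟨g1, rfl⟩ := QuotientGroup.mk'_surjective _ g
    obtain ⟨g2, rfl⟩ := QuotientGroup.mk'_surjective _ g1
    have h3 := layer1 law x2 y2 g2
    rw [← QuotientGroup.eq_one_iff] at h3
    have h4 : (QuotientGroup.mk' (KK (G ⧸ KK G)))
      ((QuotientGroup.mk' (KK G)) (cm (cm x2 y2) (cj (cm x2 y2) g2))) = 1 := h3
    simp only [map_cm, map_cj] at h4
    exact cm_eq_one_iff.1 h4
  have h1 : dS (⊤ : Subgroup (G ⧸ KK G)) (1 + d + d * d) = ⊥ := by
    rw [dS_add]
    exact le_bot_iff.1 ((dS_mono (dS_quot _ _ h2) (d * d)).trans (KK_sol F law1).le)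
  rw [dS_add]
  exact le_bot_iff.1 ((dS_mono (dS_quot _ _ h1) (d * d)).trans (KK_sol F law).le)

theorem dS_top_eq (n : ℕ) : dS (⊤ : Subgroup G) n = derivedSeries G n := by
  induction n with
  | zero => rfl
  | succ n ih => rw [derivedSeries_succ, ← ih]; rfl

/-- a section of the derived series has exponent dividing 3 -/
theorem pow_three_mem (law : Law G) (n : ℕ) (x : G) (hx : x ∈ dS (⊤ : Subgroup G) (n + 1)) :
    x ^ 3 ∈ dS (⊤ : Subgroup G) (n + 2) := by
  set N := dS (⊤ : Subgroup G) (n + 2) with hN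
  set φ := QuotientGroup.mk' N with hφ
  have hab : ∀ a ∈ dS (⊤ : Subgroup G) (n + 1), ∀ b ∈ dS (⊤ : Subgroup G) (n + 1),
      Commute (φ a) (φ b) := by
    intro a ha b hb
    have : ⁅a, b⁆ ∈ N := Subgroup.commutator_mem_commutator ha hb
    rw [← QuotientGroup.eq_one_iff] at this
    have h2 : φ ⁅a, b⁆ = 1 := this
    rwa [map_commutatorElement, commutatorElement_eq_one_iff_commute] at h2
  have key : φ x ^ 3 = 1 ∧ x ∈ dS (⊤ : Subgroup G) (n + 1) := by
    change x ∈ ⁅dS (⊤ : Subgroup G) n, dS (⊤ : Subgroup G) n⁆ at hx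
    rw [Subgroup.commutator_def] at hx
    induction hx using Subgroup.closure_induction with
    | mem x hx =>
      obtain ⟨a, ha, b, hb, rfl⟩ := hx
      refine ⟨?_, Subgroup.commutator_mem_commutator ha hb⟩
      rw [← map_pow]
      have : ⁅a, b⁆ ^ 3 = 1 := by
        have := law a⁻¹ b⁻¹
        simpa [cm, commutatorElement_def] using this
      rw [this, map_one]
    | one => exact ⟨by simp, Subgroup.one_mem _⟩
    | mul x y hx hy ih ih' =>
      refine ⟨?_, Subgroup.mul_mem _ ih.2 ih'.2⟩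
      rw [map_mul, (hab x ih.2 y ih'.2).mul_pow, ih.1, ih'.1, one_mul]
    | inv x hx ih =>
      refine ⟨?_, Subgroup.inv_mem _ ih.2⟩
      rw [map_inv, inv_pow, ih.1, inv_one]
  have h3 := key.1
  rw [← map_pow] at h3
  exact (QuotientGroup.eq_one_iff _).1 h3

theorem pow_mem_dS (law : Law G) (n : ℕ) (x : G) (hx : x ∈ dS (⊤ : Subgroup G) 1) :
    x ^ (3 ^ n) ∈ dS (⊤ : Subgroup G) (n + 1) := by
  induction n with
  | zero => simpa using hx
  | succ n ih =>
    have := pow_three_mem law n _ ih
    rwa [← pow_mul, ← pow_succ] at this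

/-- Q1 and Q2 from Theorem F -/
theorem main {d : ℕ} (F : ThmF.{u} d) (G : Type u) [Group G] (law : Law G) :
    derivedSeries G (1 + d + d * d + d * d) = ⊥ ∧
      ∀ x ∈ commutator G, x ^ (3 ^ (d + d * d + d * d)) = 1 := by
  have h := main_dS F G law
  refine ⟨by rw [← dS_top_eq]; exact h, ?_⟩
  intro x hx
  have hx' : x ∈ dS (⊤ : Subgroup G) 1 := hx
  have h2 := pow_mem_dS law (d + d * d + d * d) x hx'
  have e : d + d * d + d * d + 1 = 1 + d + d * d + d * d := by ring
  rw [e, h] at h2
  exact h2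

/-- Q1 and Q2 from the layer statement -/
theorem main_of_layer {M : ℕ} (H : Layer.{u} M) : ∃ d : ℕ, ∀ (G : Type u) [Group G], Law G →
    derivedSeries G (1 + d + d * d + d * d) = ⊥ ∧
      ∀ x ∈ commutator G, x ^ (3 ^ (d + d * d + d * d)) = 1 :=
  ⟨M + 5, fun G _ law => main (F_of_layer M H) G law⟩

end Pool.Agent.Lib.MP_107960_al.H11F
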